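import Pool.Agent.Helper53.GC.T2

/-!
The quadratic form of the frequencies `√q`, `q` squarefree, with the weights `r₂(q) q^(-3/4)`,
is at least `c K^(1/4)` times the identity.
-/

open Set Filter
open scoped Real Topology ComplexConjugate

namespace Pool.Agent.Helper53.GC

open Pool.Agent.Helper22.GC

noncomputable section

lemma AS_le {C : ℝ} (hup : ∀ K : ℕ,
    ∑ k ∈ Finset.range K, (gr (k + 1) : ℝ) * ((k + 1 : ℕ) : ℝ) ^ (-(3 / 4) : ℝ) ≤
      C * (K : ℝ) ^ (1 / 4 : ℝ)) (K : ℕ) : AS K ≤ C * (K : ℝ) ^ (1 / 4 : ℝ) :=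
  (Finset.sum_le_sum_of_subset_of_nonneg (Finset.filter_subset _ _)
    (fun _ _ _ => rr_nonneg _)).trans (hup K)

theorem AS_eventually : ∃ c : ℝ, 0 < c ∧ ∃ K₀ : ℕ, ∀ K : ℕ, K₀ ≤ K →
    c * (K : ℝ) ^ (1 / 4 : ℝ) ≤ AS K := by
  obtain ⟨C, hC, hup⟩ := exists_sum_upper
  have hsum : Summable (fun j : ℕ => (j : ℝ) ^ (-(13 / 10) : ℝ)) :=
    Real.summable_nat_rpow.mpr (by norm_num)
  obtain ⟨s, hs⟩ := summable_iff_vanishing_norm.mp hsum (1 / C) (by positivity)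
  obtain ⟨J, hJ⟩ : ∃ J : ℕ, ∀ j ∈ s, j ≤ J := ⟨s.sup id, fun j hj => Finset.le_sup (f := id) hj⟩
  obtain ⟨C₀, hC₀, hlow⟩ := exists_sum_lower
  have key : ∀ K : ℕ, ∑ k ∈ Finset.range K, rr (k + 1) ≤
      (J : ℝ) * AS K + (K : ℝ) ^ (1 / 4 : ℝ) := by
    intro K
    have h3 : ∀ k ∈ Finset.range K, rr (k + 1) ≤ ∑ j ∈ Finset.Icc 1 K,
        (if j ^ 2 ∣ k + 1 ∧ Squarefree ((k + 1) / j ^ 2) then rr (k + 1) else 0) := by
      intro k hk
      obtain ⟨a, b, hab, hsq⟩ := Nat.sq_mul_squarefree (k + 1)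
      have hb0 : 0 < b := by
        rcases Nat.eq_zero_or_pos b with h | h
        · rw [h] at hab; simp at hab
        · exact h
      have hb2 : 0 < b ^ 2 := by positivity
      have ha0 : 0 < a := Nat.pos_of_ne_zero hsq.ne_zero
      have hbK : b ≤ K := by
        have h4 : b ≤ b ^ 2 := Nat.le_self_pow (by norm_num) b
        have h5 : b ^ 2 ≤ b ^ 2 * a := Nat.le_mul_of_pos_right _ ha0
        have h6 := Finset.mem_range.mp hk
        omega
      have hbm : b ∈ Finset.Icc 1 K := Finset.mem_Icc.mpr ⟨hb0, hbK⟩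
      refine le_trans ?_ (Finset.single_le_sum (f := fun j => if j ^ 2 ∣ k + 1 ∧
        Squarefree ((k + 1) / j ^ 2) then rr (k + 1) else 0) (fun j _ => ?_) hbm)
      · have h7 : (k + 1) / b ^ 2 = a := by rw [← hab, Nat.mul_div_cancel_left _ hb2]
        have h8 : b ^ 2 ∣ k + 1 := Dvd.intro _ hab
        simp only [h7, h8, hsq, true_and, if_true]
        exact le_rfl
      · beta_reduce
        split_ifs
        · exact rr_nonneg _
        · exact le_rfl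
    refine (Finset.sum_le_sum h3).trans ?_
    rw [Finset.sum_comm]
    have h4 : ∀ j ∈ Finset.Icc 1 K, ∑ k ∈ Finset.range K,
        (if j ^ 2 ∣ k + 1 ∧ Squarefree ((k + 1) / j ^ 2) then rr (k + 1) else 0) ≤
        (j : ℝ) ^ (-(4 / 5) : ℝ) * AS (K / j ^ 2) := by
      intro j hj
      have hj0 : 0 < j := (Finset.mem_Icc.mp hj).1
      refine (sum_multiples hj0 Squarefree K).trans ?_
      rw [← Finset.sum_filter]
      exact le_rfl
    rw [← Finset.sum_filter_add_sum_filter_not (Finset.Icc 1 K) (fun j => j ≤ J)]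
    refine add_le_add ?_ ?_
    · -- small `j`
      have h5 : ∀ j ∈ (Finset.Icc 1 K).filter (fun j => j ≤ J), ∑ k ∈ Finset.range K,
          (if j ^ 2 ∣ k + 1 ∧ Squarefree ((k + 1) / j ^ 2) then rr (k + 1) else 0) ≤ AS K := by
        intro j hj
        have hj1 := (Finset.mem_filter.mp hj).1
        have hj0 : 1 ≤ j := (Finset.mem_Icc.mp hj1).1
        refine (h4 j hj1).trans ?_
        have h6 : (j : ℝ) ^ (-(4 / 5) : ℝ) ≤ 1 :=
          Real.rpow_le_one_of_one_le_of_nonpos (by exact_mod_cast hj0) (by norm_num)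
        have h7 : AS (K / j ^ 2) ≤ AS K := AS_mono (Nat.div_le_self _ _)
        calc (j : ℝ) ^ (-(4 / 5) : ℝ) * AS (K / j ^ 2) ≤ 1 * AS K :=
              mul_le_mul h6 h7 (AS_nonneg _) (by norm_num)
          _ = AS K := one_mul _
      refine (Finset.sum_le_sum h5).trans ?_
      rw [Finset.sum_const, nsmul_eq_mul]
      refine mul_le_mul_of_nonneg_right ?_ (AS_nonneg _)
      have h8 : ((Finset.Icc 1 K).filter (fun j => j ≤ J)).card ≤ J := by
        have h9 : (Finset.Icc 1 K).filter (fun j => j ≤ J) ⊆ Finset.Icc 1 J := by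
          intro j hj
          rw [Finset.mem_filter, Finset.mem_Icc] at hj
          rw [Finset.mem_Icc]
          exact ⟨hj.1.1, hj.2⟩
        simpa using Finset.card_le_card h9
      exact_mod_cast h8
    · -- large `j`
      have h5 : ∀ j ∈ (Finset.Icc 1 K).filter (fun j => ¬ j ≤ J), ∑ k ∈ Finset.range K,
          (if j ^ 2 ∣ k + 1 ∧ Squarefree ((k + 1) / j ^ 2) then rr (k + 1) else 0) ≤
          C * (K : ℝ) ^ (1 / 4 : ℝ) * (j : ℝ) ^ (-(13 / 10) : ℝ) := by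
        intro j hj
        have hj1 := (Finset.mem_filter.mp hj).1
        have hj0 : 0 < j := (Finset.mem_Icc.mp hj1).1
        have hj' : (0 : ℝ) < j := by exact_mod_cast hj0
        refine (h4 j hj1).trans ?_
        have h6 := AS_le hup (K / j ^ 2)
        have h7 := div_rpow_le K j hj0 (s := 1 / 4) (by norm_num)
        calc (j : ℝ) ^ (-(4 / 5) : ℝ) * AS (K / j ^ 2)
            ≤ (j : ℝ) ^ (-(4 / 5) : ℝ) *
              (C * ((K : ℝ) ^ (1 / 4 : ℝ) * (j : ℝ) ^ (-2 * (1 / 4) : ℝ))) := by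
              refine mul_le_mul_of_nonneg_left (h6.trans ?_) (by positivity)
              gcongr
          _ = C * (K : ℝ) ^ (1 / 4 : ℝ) * (j : ℝ) ^ (-(4 / 5) + -2 * (1 / 4) : ℝ) := by
              rw [Real.rpow_add hj']; ring
          _ = _ := by norm_num
      refine (Finset.sum_le_sum h5).trans ?_
      rw [← Finset.mul_sum]
      have h8 := hs ((Finset.Icc 1 K).filter (fun j => ¬ j ≤ J)) (by
        rw [Finset.disjoint_left]
        intro a ha has
        exact (Finset.mem_filter.mp ha).2 (hJ a has))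
      rw [Real.norm_eq_abs, abs_of_nonneg (Finset.sum_nonneg fun j _ => by positivity)] at h8
      calc C * (K : ℝ) ^ (1 / 4 : ℝ) *
            ∑ j ∈ (Finset.Icc 1 K).filter (fun j => ¬ j ≤ J), (j : ℝ) ^ (-(13 / 10) : ℝ)
          ≤ C * (K : ℝ) ^ (1 / 4 : ℝ) * (1 / C) := by gcongr
        _ = (K : ℝ) ^ (1 / 4 : ℝ) := by field_simp
  have hev : ∀ᶠ K : ℕ in atTop, C₀ ≤ (K : ℝ) ^ (1 / 4 : ℝ) :=
    ((tendsto_rpow_atTop (by norm_num : (0 : ℝ) < 1 / 4)).comp
      tendsto_natCast_atTop_atTop).eventually_ge_atTop _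
  obtain ⟨K₀, hK₀⟩ := eventually_atTop.mp (hev.and (eventually_ge_atTop 1))
  refine ⟨1 / (J + 1), by positivity, K₀, fun K hK => ?_⟩
  obtain ⟨h1, h2⟩ := hK₀ K hK
  have h3 := key K
  have h4 := hlow K h2
  have h5 : ∑ k ∈ Finset.range K, rr (k + 1) =
      ∑ k ∈ Finset.range K, (gr (k + 1) : ℝ) * ((k + 1 : ℕ) : ℝ) ^ (-(3 / 4) : ℝ) :=
    Finset.sum_congr rfl fun k _ => rfl
  rw [← h5] at h4
  have hpi : (3 : ℝ) < π := Real.pi_gt_three
  have h6 : 0 ≤ (K : ℝ) ^ (1 / 4 : ℝ) := by positivity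
  have h7 := AS_nonneg K
  rw [div_mul_eq_mul_div, one_mul, div_le_iff₀ (by positivity)]
  nlinarith

section

variable {I : Type*} [Fintype I] (t : I → ℝ)

lemma QQ_lower (xi : I → ℂ) {N : ℕ} {E : ℝ} (hE : 0 ≤ E)
    (h : ∀ i j, i ≠ j → ‖SF (t i - t j) N‖ ≤ E) :
    (AS N - Fintype.card I * E) * ∑ i, ‖xi i‖ ^ 2 ≤ QQ t xi N := by
  classical
  set S : ℝ := ∑ i, ‖xi i‖ ^ 2 with hS
  have h1 : ((QQ t xi N : ℝ) : ℂ) - ((S * AS N : ℝ) : ℂ) =
      ∑ i, ∑ j, (if i = j then 0 else xi i * conj (xi j) * SF (t i - t j) N) := by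
    have h2 : ((S * AS N : ℝ) : ℂ) =
        ∑ i, ∑ j, (if i = j then xi i * conj (xi j) * SF (t i - t j) N else 0) := by
      simp only [Finset.sum_ite_eq, Finset.mem_univ, if_true, sub_self, SF_zero]
      rw [← Finset.sum_mul, hS]
      push_cast
      congr 1
      refine Finset.sum_congr rfl fun i _ => ?_
      rw [Complex.mul_conj, Complex.normSq_eq_norm_sq]
      push_cast
      rfl
    rw [QQ_expand, h2, ← Finset.sum_sub_distrib]
    refine Finset.sum_congr rfl fun i _ => ?_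
    rw [← Finset.sum_sub_distrib]
    refine Finset.sum_congr rfl fun j _ => ?_
    split_ifs <;> simp
  have h3 : |QQ t xi N - S * AS N| ≤ Fintype.card I * E * S := by
    have h4 : |QQ t xi N - S * AS N| = ‖((QQ t xi N : ℝ) : ℂ) - ((S * AS N : ℝ) : ℂ)‖ := by
      rw [← Complex.ofReal_sub, Complex.norm_real, Real.norm_eq_abs]
    rw [h4, h1]
    refine (norm_sum_le _ _).trans ?_
    have h5 : ∀ i : I, ‖∑ j, (if i = j then 0 else xi i * conj (xi j) * SF (t i - t j) N)‖ ≤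
        ∑ j, (‖xi i‖ ^ 2 + ‖xi j‖ ^ 2) / 2 * E := by
      intro i
      refine (norm_sum_le _ _).trans (Finset.sum_le_sum fun j _ => ?_)
      split_ifs with hij
      · rw [norm_zero]; positivity
      · rw [norm_mul, norm_mul, RCLike.norm_conj]
        have h6 := h i j hij
        have h7 : ‖xi i‖ * ‖xi j‖ ≤ (‖xi i‖ ^ 2 + ‖xi j‖ ^ 2) / 2 := by
          nlinarith [sq_nonneg (‖xi i‖ - ‖xi j‖)]
        exact mul_le_mul h7 h6 (norm_nonneg _) (by positivity)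
    refine (Finset.sum_le_sum fun i _ => h5 i).trans (le_of_eq ?_)
    have h8 : ∀ i : I, ∑ j, (‖xi i‖ ^ 2 + ‖xi j‖ ^ 2) / 2 * E =
        (Fintype.card I * ‖xi i‖ ^ 2 + S) / 2 * E := by
      intro i
      rw [← Finset.sum_mul, ← Finset.sum_div, Finset.sum_add_distrib]
      simp [hS]
    rw [Finset.sum_congr rfl fun i _ => h8 i, ← Finset.sum_mul, ← Finset.sum_div,
      Finset.sum_add_distrib, ← Finset.mul_sum, ← hS]
    simp
    ring
  have h9 := (abs_le.mp h3).1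
  linarith

theorem QQ_coercive (ht : Function.Injective t) : ∃ c : ℝ, 0 < c ∧ ∃ K₀ : ℕ, ∀ K : ℕ, K₀ ≤ K →
    ∀ xi : I → ℂ, c * (K : ℝ) ^ (1 / 4 : ℝ) * ∑ i, ‖xi i‖ ^ 2 ≤ QQ t xi K := by
  obtain ⟨c, hc, K₁, hAS⟩ := AS_eventually
  set m : ℝ := (Fintype.card I : ℝ) with hm
  have hm0 : 0 ≤ m := Nat.cast_nonneg _
  set ε : ℝ := c / (4 * (m + 1)) with hε
  have hε0 : 0 < ε := by positivity
  have hex : ∀ i j : I, ∃ B : ℝ, 0 < B ∧ (i ≠ j → ∀ K : ℕ, ‖SF (t i - t j) K‖ ≤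
      ε * (K : ℝ) ^ (1 / 4 : ℝ) + B * (K : ℝ) ^ (1 / 8 : ℝ)) := by
    intro i j
    by_cases hij : i = j
    · exact ⟨1, one_pos, fun h => absurd hij h⟩
    · obtain ⟨B, hB, h⟩ := SF_small (sub_ne_zero.mpr (ht.ne hij)) hε0
      exact ⟨B, hB, fun _ => h⟩
  choose B hB hSF using hex
  set B' : ℝ := ∑ i, ∑ j, B i j with hB'
  have hBle : ∀ i j, B i j ≤ B' := by
    intro i j
    calc B i j ≤ ∑ j', B i j' :=
          Finset.single_le_sum (f := fun j' => B i j') (fun j' _ => (hB i j').le) (Finset.mem_univ j)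
      _ ≤ B' := Finset.single_le_sum (f := fun i' => ∑ j', B i' j')
          (fun i' _ => Finset.sum_nonneg fun j' _ => (hB i' j').le) (Finset.mem_univ i)
  have hB'0 : 0 ≤ B' := Finset.sum_nonneg fun i _ => Finset.sum_nonneg fun j _ => (hB i j).le
  have hev : ∀ᶠ K : ℕ in atTop, 4 * m * B' / c ≤ (K : ℝ) ^ (1 / 8 : ℝ) :=
    ((tendsto_rpow_atTop (by norm_num : (0 : ℝ) < 1 / 8)).comp
      tendsto_natCast_atTop_atTop).eventually_ge_atTop _
  obtain ⟨K₀, hK₀⟩ := eventually_atTop.mp (hev.and (eventually_ge_atTop K₁))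
  refine ⟨c / 2, by positivity, K₀, fun K hK xi => ?_⟩
  obtain ⟨h1, h2⟩ := hK₀ K hK
  have h3 : (K : ℝ) ^ (1 / 4 : ℝ) = ((K : ℝ) ^ (1 / 8 : ℝ)) ^ 2 := by
    rw [← Real.rpow_natCast, ← Real.rpow_mul (Nat.cast_nonneg _)]
    norm_num
  set u : ℝ := (K : ℝ) ^ (1 / 8 : ℝ) with hu
  have hu0 : 0 ≤ u := by positivity
  have h4 := QQ_lower t xi (N := K) (E := ε * (K : ℝ) ^ (1 / 4 : ℝ) + B' * u) (by positivity)
    (fun i j hij => (hSF i j hij K).trans (by
      have := mul_le_mul_of_nonneg_right (hBle i j) hu0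
      linarith))
  refine le_trans ?_ h4
  refine mul_le_mul_of_nonneg_right ?_ (Finset.sum_nonneg fun i _ => by positivity)
  have h5 := hAS K h2
  rw [h3] at h5 ⊢
  have h6 : m * ε ≤ c / 4 := by
    rw [hε, mul_div_assoc', div_le_div_iff₀ (by positivity) (by norm_num)]
    nlinarith
  have h7 : m * B' ≤ c / 4 * u := by
    rw [div_le_iff₀ hc] at h1
    linarith
  have h8 : m * ε * u ^ 2 ≤ c / 4 * u ^ 2 := mul_le_mul_of_nonneg_right h6 (sq_nonneg _)
  have h9 : m * B' * u ≤ c / 4 * u * u := mul_le_mul_of_nonneg_right h7 hu0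
  have h10 : m * (ε * u ^ 2 + B' * u) = m * ε * u ^ 2 + m * B' * u := by ring
  rw [h10]
  linarith [h5, h8, h9, (by ring : c / 4 * u * u = c / 4 * u ^ 2)]

/-- **Coercivity.** For distinct reals `t i` the quadratic form
`∑ r₂(q) q^(-3/4) |∑ xi i e(√q t i)|²` over the squarefree `q ≤ K` is at least
`c K^(1/4) ∑ xi i ^ 2`, for all large `K`. -/
theorem D1 (ht : Function.Injective t) : ∃ c : ℝ, 0 < c ∧ ∃ K₀ : ℕ, ∀ K : ℕ, K₀ ≤ K →
    ∀ xi : I → ℝ, c * (K : ℝ) ^ (1 / 4 : ℝ) * ∑ i, xi i ^ 2 ≤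
      ∑ q ∈ (Finset.range (K + 1)).filter Squarefree,
        (gr q : ℝ) * (q : ℝ) ^ (-(3 / 4) : ℝ) *
          ‖∑ i, ((xi i : ℝ) : ℂ) * ee (√(q : ℝ) * t i)‖ ^ 2 := by
  obtain ⟨c, hc, K₀, h⟩ := QQ_coercive t ht
  refine ⟨c, hc, K₀, fun K hK xi => ?_⟩
  have h1 := h K hK (fun i => ((xi i : ℝ) : ℂ))
  have h2 : ∑ i, ‖((xi i : ℝ) : ℂ)‖ ^ 2 = ∑ i, xi i ^ 2 := by
    refine Finset.sum_congr rfl fun i _ => ?_
    rw [Complex.norm_real, Real.norm_eq_abs, sq_abs]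
  rw [h2] at h1
  refine h1.trans (le_of_eq ?_)
  rw [QQ, Finset.sum_filter, Finset.sum_filter, Finset.sum_range_succ' _ K]
  have h0 : ¬ Squarefree 0 := not_squarefree_zero
  rw [if_neg h0, add_zero]
  rfl

end

end

end Pool.Agent.Helper53.GC
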