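import Pool.Agent.Helper53.GC.D1
import Pool.Agent.Helper78.GC.Steer2

/-!
Two-sided bounds for the sum of the quadratic forms `Ast`.
-/

open Set Filter
open scoped Real Topology ComplexConjugate

namespace Pool.Agent.Helper53.GC

open Pool.Agent.Helper22.GC
open Pool.Agent.Helper78.GC (Ast sqf mem_sqf SqHyp bet phs bet_nonneg bet_le Ast_nonneg Ast_smul
  Ast_lower sqf_eq)

noncomputable section

theorem rho_sq_le : SqHyp := by
  intro j q hj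
  have h1 := rr_sq_mul_le (m := q) (Nat.lt_of_lt_of_le Nat.zero_lt_one hj)
  have h2 : (j : ℝ) ^ (-(4 / 5) : ℝ) ≤ 1 :=
    Real.rpow_le_one_of_one_le_of_nonpos (by exact_mod_cast hj) (by norm_num)
  have h3 : rho (q * j ^ 2) = rr (j ^ 2 * q) := by rw [mul_comm]; rfl
  have h4 : rho q = rr q := rfl
  rw [h3, h4]
  exact h1.trans (mul_le_of_le_one_left (rr_nonneg q) h2)

lemma sum_sqf_rho_le : ∃ C : ℝ, 0 < C ∧ ∀ K : ℕ,
    ∑ q ∈ sqf K, rho q ≤ C * (K : ℝ) ^ (1 / 4 : ℝ) := by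
  obtain ⟨C, hC, hup⟩ := exists_sum_upper
  refine ⟨C, hC, fun K => le_trans ?_ (hup K)⟩
  rw [← sqf_eq, Finset.sum_filter, Finset.sum_range_succ' _ K]
  have h0 : ¬ Squarefree 0 := not_squarefree_zero
  rw [if_neg h0, add_zero]
  refine Finset.sum_le_sum fun k _ => ?_
  split_ifs
  · exact le_rfl
  · positivity

section

variable {ι : Type} [Fintype ι] {r : ι → ℕ} {s : ι → ℝ}

lemma Ast_le (hr : ∀ i, 1 ≤ r i) (q : ℕ) (xi : ι → ℝ) :
    Ast r s q xi ≤ ((Fintype.card ι : ℝ) ^ 3 / π) * (rho q * ‖xi‖ ^ 2) := by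
  classical
  have hnn : 0 ≤ rho q := rho_nonneg q
  set m : ℝ := (Fintype.card ι : ℝ) with hm
  have hm0 : 0 ≤ m := Nat.cast_nonneg _
  have hlin : ∀ h ∈ Finset.univ.image r, ∀ f : ι → ℝ, (∀ i, |f i| ≤ 1) →
      (∑ i, xi i * bet r q h i * f i) ^ 2 ≤ (m * (‖xi‖ * rho q)) ^ 2 := by
    intro h hh f hf
    have hh1 : 1 ≤ h := by
      obtain ⟨i₀, _, rfl⟩ := Finset.mem_image.mp hh
      exact hr i₀
    have h1 : |∑ i, xi i * bet r q h i * f i| ≤ m * (‖xi‖ * rho q) := by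
      refine (Finset.abs_sum_le_sum_abs _ _).trans ?_
      calc ∑ i, |xi i * bet r q h i * f i| ≤ ∑ _i : ι, ‖xi‖ * rho q := by
            refine Finset.sum_le_sum fun i _ => ?_
            rw [abs_mul, abs_mul, abs_of_nonneg (bet_nonneg r q h i)]
            have h2 : |xi i| ≤ ‖xi‖ := norm_le_pi_norm xi i
            have h3 := bet_le rho_sq_le hr (q := q) hh1 i
            calc |xi i| * bet r q h i * |f i| ≤ |xi i| * bet r q h i * 1 := by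
                  refine mul_le_mul_of_nonneg_left (hf i) ?_
                  exact mul_nonneg (abs_nonneg _) (bet_nonneg r q h i)
              _ ≤ ‖xi‖ * rho q := by
                  rw [mul_one]
                  exact mul_le_mul h2 h3 (bet_nonneg r q h i) (norm_nonneg _)
        _ = m * (‖xi‖ * rho q) := by
            rw [Finset.sum_const, Finset.card_univ, nsmul_eq_mul]
    calc (∑ i, xi i * bet r q h i * f i) ^ 2 = |∑ i, xi i * bet r q h i * f i| ^ 2 := (sq_abs _).symm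
      _ ≤ _ := pow_le_pow_left₀ (abs_nonneg _) h1 2
  have hterm : ∀ h ∈ Finset.univ.image r, (1 / rho q) * (1 / (2 * π)) *
      ((∑ i, xi i * bet r q h i * Real.cos (phs r s q h i)) ^ 2
      + (∑ i, xi i * bet r q h i * Real.sin (phs r s q h i)) ^ 2) ≤
      m ^ 2 / π * (rho q * ‖xi‖ ^ 2) := by
    intro h hh
    have h1 := hlin h hh (fun i => Real.cos (phs r s q h i)) fun i => Real.abs_cos_le_one _
    have h2 := hlin h hh (fun i => Real.sin (phs r s q h i)) fun i => Real.abs_sin_le_one _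
    rcases eq_or_lt_of_le hnn with h0 | hpos
    · rw [← h0]; simp
    · calc (1 / rho q) * (1 / (2 * π)) *
          ((∑ i, xi i * bet r q h i * Real.cos (phs r s q h i)) ^ 2
          + (∑ i, xi i * bet r q h i * Real.sin (phs r s q h i)) ^ 2)
          ≤ (1 / rho q) * (1 / (2 * π)) * ((m * (‖xi‖ * rho q)) ^ 2 + (m * (‖xi‖ * rho q)) ^ 2) := by
            refine mul_le_mul_of_nonneg_left (add_le_add h1 h2) (by positivity)
        _ = m ^ 2 / π * (rho q * ‖xi‖ ^ 2) := by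
            field_simp
            ring
  rw [Ast]
  refine (Finset.sum_le_card_nsmul _ _ _ hterm).trans ?_
  rw [nsmul_eq_mul]
  have hcard : ((Finset.univ.image r).card : ℝ) ≤ m := by
    rw [hm]
    exact_mod_cast Finset.card_image_le.trans (le_of_eq Finset.card_univ)
  calc ((Finset.univ.image r).card : ℝ) * (m ^ 2 / π * (rho q * ‖xi‖ ^ 2))
      ≤ m * (m ^ 2 / π * (rho q * ‖xi‖ ^ 2)) :=
        mul_le_mul_of_nonneg_right hcard (by positivity)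
    _ = _ := by ring

/-- Upper bound. -/
theorem D3a_upper (hr : ∀ i, 1 ≤ r i) : ∃ C : ℝ, 0 < C ∧ ∀ K : ℕ, ∀ xi : ι → ℝ,
    ∑ q ∈ sqf K, Ast r s q xi ≤ C * (K : ℝ) ^ (1 / 4 : ℝ) * ‖xi‖ ^ 2 := by
  obtain ⟨C, hC, h⟩ := sum_sqf_rho_le
  refine ⟨((Fintype.card ι : ℝ) ^ 3 / π) * C + 1, by positivity, fun K xi => ?_⟩
  have h1 : ∑ q ∈ sqf K, Ast r s q xi ≤
      ∑ q ∈ sqf K, ((Fintype.card ι : ℝ) ^ 3 / π) * (rho q * ‖xi‖ ^ 2) :=
    Finset.sum_le_sum fun q _ => Ast_le hr q xi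
  rw [← Finset.mul_sum, ← Finset.sum_mul] at h1
  have h2 := h K
  have h3 : 0 ≤ (K : ℝ) ^ (1 / 4 : ℝ) * ‖xi‖ ^ 2 := by positivity
  calc ∑ q ∈ sqf K, Ast r s q xi
      ≤ ((Fintype.card ι : ℝ) ^ 3 / π) * ((C * (K : ℝ) ^ (1 / 4 : ℝ)) * ‖xi‖ ^ 2) := by
        refine h1.trans ?_
        gcongr
    _ ≤ _ := by
        have e : (((Fintype.card ι : ℝ) ^ 3 / π) * C + 1) * (K : ℝ) ^ (1 / 4 : ℝ) * ‖xi‖ ^ 2 =
          ((Fintype.card ι : ℝ) ^ 3 / π) * ((C * (K : ℝ) ^ (1 / 4 : ℝ)) * ‖xi‖ ^ 2) +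
          (K : ℝ) ^ (1 / 4 : ℝ) * ‖xi‖ ^ 2 := by ring
        rw [e]
        linarith

lemma Ast_add_le (q : ℕ) (xi eta : ι → ℝ) :
    Ast r s q (xi + eta) ≤ 2 * Ast r s q xi + 2 * Ast r s q eta := by
  rw [Ast, Ast, Ast, Finset.mul_sum, Finset.mul_sum, ← Finset.sum_add_distrib]
  refine Finset.sum_le_sum fun h _ => ?_
  have hnn : 0 ≤ rho q := rho_nonneg q
  have h1 : ∀ f : ι → ℝ, ∑ i, (xi + eta) i * bet r q h i * f i =
      ∑ i, xi i * bet r q h i * f i + ∑ i, eta i * bet r q h i * f i := by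
    intro f
    rw [← Finset.sum_add_distrib]
    exact Finset.sum_congr rfl fun i _ => by rw [Pi.add_apply]; ring
  rw [h1 fun i => Real.cos (phs r s q h i), h1 fun i => Real.sin (phs r s q h i)]
  have h2 : ∀ a b : ℝ, (a + b) ^ 2 ≤ 2 * a ^ 2 + 2 * b ^ 2 := fun a b => by
    nlinarith [sq_nonneg (a - b)]
  have h3 : 0 ≤ (1 / rho q) * (1 / (2 * π)) := by positivity
  set a1 := ∑ i, xi i * bet r q h i * Real.cos (phs r s q h i)
  set b1 := ∑ i, eta i * bet r q h i * Real.cos (phs r s q h i)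
  set a2 := ∑ i, xi i * bet r q h i * Real.sin (phs r s q h i)
  set b2 := ∑ i, eta i * bet r q h i * Real.sin (phs r s q h i)
  calc (1 / rho q) * (1 / (2 * π)) * ((a1 + b1) ^ 2 + (a2 + b2) ^ 2)
      ≤ (1 / rho q) * (1 / (2 * π)) * ((2 * a1 ^ 2 + 2 * b1 ^ 2) + (2 * a2 ^ 2 + 2 * b2 ^ 2)) :=
        mul_le_mul_of_nonneg_left (add_le_add (h2 _ _) (h2 _ _)) h3
    _ = _ := by ring

/-- Pointwise lower bound. -/
lemma D3a_pointwise (hr : ∀ i, 1 ≤ r i) (hrs : ∀ i k, r i = r k → s i = s k → i = k)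
    {xi : ι → ℝ} (hxi : xi ≠ 0) : ∃ c : ℝ, 0 < c ∧ ∃ K₀ : ℕ, ∀ K : ℕ, K₀ ≤ K →
    c * (K : ℝ) ^ (1 / 4 : ℝ) ≤ ∑ q ∈ sqf K, Ast r s q xi := by
  classical
  have hne : (Finset.univ.filter fun i => xi i ≠ 0).Nonempty := by
    by_contra hcon
    rw [Finset.not_nonempty_iff_eq_empty, Finset.filter_eq_empty_iff] at hcon
    apply hxi
    funext i
    simpa using hcon (Finset.mem_univ i)
  obtain ⟨i₀, hi₀, hmin⟩ := Finset.exists_min_image _ r hne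
  set h := r i₀ with hh
  have hmin' : ∀ i, xi i ≠ 0 → h ≤ r i :=
    fun i hi => hmin i (Finset.mem_filter.mpr ⟨Finset.mem_univ _, hi⟩)
  have hi₀' : xi i₀ ≠ 0 := (Finset.mem_filter.mp hi₀).2
  obtain ⟨c, hc, K₀, hD⟩ := D1 (I := {i // r i = h}) (fun i => s i) (by
    intro i k hik
    exact Subtype.ext (hrs i k (by rw [i.2, k.2]) hik))
  have hS : 0 < ∑ i : {i // r i = h}, xi i ^ 2 := by
    refine lt_of_lt_of_le (by positivity : 0 < xi i₀ ^ 2)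
      (Finset.single_le_sum (f := fun i : {i // r i = h} => xi i ^ 2)
        (fun i _ => sq_nonneg _) (Finset.mem_univ (⟨i₀, rfl⟩ : {i // r i = h})))
  refine ⟨1 / (2 * π) * (c * ∑ i : {i // r i = h}, xi i ^ 2), by positivity, K₀, fun K hK => ?_⟩
  have h1 := hD K hK (fun i => xi i)
  rw [sqf_eq] at h1
  have h2 : ∑ q ∈ sqf K, 1 / (2 * π) *
      (rho q * ‖∑ i : {i // r i = h}, ((xi i : ℝ) : ℂ) * ee (√(q : ℝ) * s i)‖ ^ 2) ≤
      ∑ q ∈ sqf K, Ast r s q xi :=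
    Finset.sum_le_sum fun q _ =>
      Ast_lower s hr (Finset.mem_image.mpr ⟨i₀, Finset.mem_univ _, rfl⟩) hmin' q
  refine le_trans ?_ h2
  rw [← Finset.mul_sum]
  have h3 : c * (K : ℝ) ^ (1 / 4 : ℝ) * ∑ i : {i // r i = h}, xi i ^ 2 ≤ ∑ q ∈ sqf K,
      rho q * ‖∑ i : {i // r i = h}, ((xi i : ℝ) : ℂ) * ee (√(q : ℝ) * s i)‖ ^ 2 := h1
  calc 1 / (2 * π) * (c * ∑ i : {i // r i = h}, xi i ^ 2) * (K : ℝ) ^ (1 / 4 : ℝ)
      = 1 / (2 * π) * (c * (K : ℝ) ^ (1 / 4 : ℝ) * ∑ i : {i // r i = h}, xi i ^ 2) := by ring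
    _ ≤ _ := mul_le_mul_of_nonneg_left h3 (by positivity)

/-- **Uniform lower bound.** -/
theorem D3a_lower (hr : ∀ i, 1 ≤ r i) (hrs : ∀ i k, r i = r k → s i = s k → i = k) :
    ∃ c : ℝ, 0 < c ∧ ∃ K₀ : ℕ, ∀ K : ℕ, K₀ ≤ K → ∀ xi : ι → ℝ,
      c * (K : ℝ) ^ (1 / 4 : ℝ) * ‖xi‖ ^ 2 ≤ ∑ q ∈ sqf K, Ast r s q xi := by
  classical
  obtain ⟨C, hC, hup⟩ := D3a_upper (s := s) hr
  -- neighbourhoods
  have hnb : ∀ xi : ι → ℝ, ∃ c : ℝ, 0 < c ∧ ∃ K₀ : ℕ, ∃ V ∈ 𝓝 xi, xi ≠ 0 → ∀ K : ℕ, K₀ ≤ K →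
      ∀ eta ∈ V, c * (K : ℝ) ^ (1 / 4 : ℝ) ≤ ∑ q ∈ sqf K, Ast r s q eta := by
    intro xi
    by_cases hxi : xi = 0
    · exact ⟨1, one_pos, 0, Set.univ, univ_mem, fun h => absurd hxi h⟩
    obtain ⟨c, hc, K₀, h⟩ := D3a_pointwise hr hrs hxi
    refine ⟨c / 4, by positivity, K₀, Metric.ball xi (√(c / (4 * C))),
      Metric.ball_mem_nhds _ (Real.sqrt_pos.mpr (by positivity)), fun _ K hK eta heta => ?_⟩
    have h1 := h K hK
    have h2 : ∑ q ∈ sqf K, Ast r s q xi ≤ 2 * ∑ q ∈ sqf K, Ast r s q eta +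
        2 * ∑ q ∈ sqf K, Ast r s q (xi - eta) := by
      rw [Finset.mul_sum, Finset.mul_sum, ← Finset.sum_add_distrib]
      refine Finset.sum_le_sum fun q _ => ?_
      have := Ast_add_le (r := r) (s := s) q eta (xi - eta)
      rwa [add_sub_cancel] at this
    have h3 := hup K (xi - eta)
    have h4 : ‖xi - eta‖ ^ 2 ≤ c / (4 * C) := by
      have h5 : ‖xi - eta‖ < √(c / (4 * C)) := by
        rw [← dist_eq_norm, dist_comm]
        exact heta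
      calc ‖xi - eta‖ ^ 2 ≤ (√(c / (4 * C))) ^ 2 := pow_le_pow_left₀ (norm_nonneg _) h5.le 2
        _ = _ := Real.sq_sqrt (by positivity)
    have hK0 : 0 ≤ (K : ℝ) ^ (1 / 4 : ℝ) := by positivity
    have h6 : C * (K : ℝ) ^ (1 / 4 : ℝ) * ‖xi - eta‖ ^ 2 ≤ c / 4 * (K : ℝ) ^ (1 / 4 : ℝ) := by
      calc C * (K : ℝ) ^ (1 / 4 : ℝ) * ‖xi - eta‖ ^ 2
          ≤ C * (K : ℝ) ^ (1 / 4 : ℝ) * (c / (4 * C)) := by gcongr
        _ = _ := by field_simp
    nlinarith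
  choose c hc K₀ V hV hcov using hnb
  obtain ⟨T, hT, hTcov⟩ := (isCompact_sphere (0 : ι → ℝ) 1).elim_nhds_subcover V (fun x _ => hV x)
  rcases T.eq_empty_or_nonempty with hTe | hTne
  · -- the sphere is empty
    refine ⟨1, one_pos, 0, fun K _ xi => ?_⟩
    have h0 : xi = 0 := by
      by_contra hxi
      have h1 : (‖xi‖⁻¹ • xi) ∈ Metric.sphere (0 : ι → ℝ) 1 := by
        rw [mem_sphere_zero_iff_norm, norm_smul, norm_inv, norm_norm,
          inv_mul_cancel₀ (norm_ne_zero_iff.mpr hxi)]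
      have h2 := hTcov h1
      rw [hTe] at h2
      simp at h2
    rw [h0, norm_zero]
    simp only [ne_eq, OfNat.ofNat_ne_zero, not_false_eq_true, zero_pow, mul_zero]
    exact Finset.sum_nonneg fun q _ => Ast_nonneg r s q _
  obtain ⟨x₁, hx₁, hmin⟩ := T.exists_min_image c hTne
  refine ⟨c x₁, hc x₁, T.sup K₀, fun K hK xi => ?_⟩
  by_cases hxi : xi = 0
  · rw [hxi, norm_zero]
    simp only [ne_eq, OfNat.ofNat_ne_zero, not_false_eq_true, zero_pow, mul_zero]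
    exact Finset.sum_nonneg fun q _ => Ast_nonneg r s q _
  have hn : ‖xi‖ ≠ 0 := norm_ne_zero_iff.mpr hxi
  have h1 : (‖xi‖⁻¹ • xi) ∈ Metric.sphere (0 : ι → ℝ) 1 := by
    rw [mem_sphere_zero_iff_norm, norm_smul, norm_inv, norm_norm, inv_mul_cancel₀ hn]
  have h2 := hTcov h1
  rw [Set.mem_iUnion₂] at h2
  obtain ⟨x, hx, hxV⟩ := h2
  have hx0 : x ≠ 0 := by
    intro h0
    have := hT x hx
    rw [h0, mem_sphere_zero_iff_norm, norm_zero] at this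
    exact zero_ne_one this
  have h3 := hcov x hx0 K ((Finset.le_sup hx).trans hK) _ hxV
  have h4 : c x₁ * (K : ℝ) ^ (1 / 4 : ℝ) ≤ ∑ q ∈ sqf K, Ast r s q (‖xi‖⁻¹ • xi) :=
    le_trans (mul_le_mul_of_nonneg_right (hmin x hx) (by positivity)) h3
  have h5 : ∑ q ∈ sqf K, Ast r s q xi = ‖xi‖ ^ 2 * ∑ q ∈ sqf K, Ast r s q (‖xi‖⁻¹ • xi) := by
    rw [Finset.mul_sum]
    refine Finset.sum_congr rfl fun q _ => ?_
    rw [Ast_smul]
    field_simp
  rw [h5]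
  calc c x₁ * (K : ℝ) ^ (1 / 4 : ℝ) * ‖xi‖ ^ 2
      = ‖xi‖ ^ 2 * (c x₁ * (K : ℝ) ^ (1 / 4 : ℝ)) := by ring
    _ ≤ _ := mul_le_mul_of_nonneg_left h4 (by positivity)

end

end

end Pool.Agent.Helper53.GC
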