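import Pool.Agent.Helper53.GC.T2d

/-!
The quadratic form of the frequencies `√q`, `q` squarefree, with the weights `r₂(q) q^(-3/4)`,
is unbounded on every nonzero exponential polynomial.
-/

open Set Filter
open scoped Real Topology ComplexConjugate

namespace Pool.Agent.Helper53.GC

open Pool.Agent.Helper22.GC

noncomputable section

lemma SF_zero (K : ℕ) : SF 0 K = (AS K : ℂ) := by
  rw [SF, AS]
  push_cast
  refine Finset.sum_congr rfl fun k _ => ?_
  rw [W, mul_zero, ee_zero, mul_one, rr]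
  push_cast
  ring

section

variable {I : Type*} [Fintype I] (t : I → ℝ) (xi : I → ℂ)

/-- The quadratic form. -/
def QQ (N : ℕ) : ℝ := ∑ k ∈ (Finset.range N).filter (fun k => Squarefree (k + 1)),
  rr (k + 1) * ‖∑ i, xi i * ee (√((k + 1 : ℕ) : ℝ) * t i)‖ ^ 2

lemma QQ_expand (N : ℕ) : ((QQ t xi N : ℝ) : ℂ) =
    ∑ i, ∑ j, xi i * conj (xi j) * SF (t i - t j) N := by
  rw [QQ]
  push_cast
  have h1 : ∀ k ∈ (Finset.range N).filter (fun k => Squarefree (k + 1)),
      ((rr (k + 1) : ℝ) : ℂ) * ((‖∑ i, xi i * ee (√((k : ℝ) + 1) * t i)‖ : ℝ) : ℂ) ^ 2 =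
      ∑ i, ∑ j, xi i * conj (xi j) * (W (t i - t j) ((k + 1 : ℕ) : ℝ) * (gr (k + 1) : ℂ)) := by
    intro k _
    have h2 : ((‖∑ i, xi i * ee (√((k : ℝ) + 1) * t i)‖ : ℝ) : ℂ) ^ 2 =
        (∑ i, xi i * ee (√((k : ℝ) + 1) * t i)) * conj (∑ i, xi i * ee (√((k : ℝ) + 1) * t i)) := by
      rw [Complex.mul_conj, Complex.normSq_eq_norm_sq]
      push_cast
      rfl
    rw [h2, map_sum, Finset.sum_mul_sum, Finset.mul_sum]
    refine Finset.sum_congr rfl fun i _ => ?_
    rw [Finset.mul_sum]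
    refine Finset.sum_congr rfl fun j _ => ?_
    rw [map_mul, conj_ee, W, rr]
    have h3 : √((k + 1 : ℕ) : ℝ) * (t i - t j) =
        √((k : ℝ) + 1) * t i + -(√((k : ℝ) + 1) * t j) := by push_cast; ring
    rw [h3, ee_add]
    push_cast
    ring
  rw [Finset.sum_congr rfl h1, Finset.sum_comm]
  refine Finset.sum_congr rfl fun i _ => ?_
  rw [Finset.sum_comm]
  refine Finset.sum_congr rfl fun j _ => ?_
  rw [SF, Finset.mul_sum]

lemma QQ_mono : Monotone (QQ t xi) := by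
  intro a b hab
  refine Finset.sum_le_sum_of_subset_of_nonneg ?_ fun k _ _ =>
    mul_nonneg (rr_nonneg _) (sq_nonneg _)
  intro k hk
  rw [Finset.mem_filter, Finset.mem_range] at hk ⊢
  exact ⟨by omega, hk.2⟩

theorem QQ_tendsto (ht : Function.Injective t) (hxi : xi ≠ 0) :
    Tendsto (QQ t xi) atTop atTop := by
  classical
  refine tendsto_atTop_atTop_of_monotone (QQ_mono t xi) fun b => ?_
  obtain ⟨c, hc, hfreq⟩ := AS_frequently
  set S : ℝ := ∑ i, ‖xi i‖ ^ 2 with hS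
  have hS0 : 0 < S := by
    obtain ⟨i, hi⟩ := Function.ne_iff.mp hxi
    have h1 : 0 < ‖xi i‖ ^ 2 := by
      have : 0 < ‖xi i‖ := norm_pos_iff.mpr hi
      positivity
    exact lt_of_lt_of_le h1 (Finset.single_le_sum (f := fun i => ‖xi i‖ ^ 2)
      (fun j _ => by positivity) (Finset.mem_univ i))
  set M : ℝ := ∑ i, ∑ j, ‖xi i‖ * ‖xi j‖ with hM
  have hM0 : 0 ≤ M := Finset.sum_nonneg fun i _ => Finset.sum_nonneg fun j _ => by positivity
  set ε : ℝ := c * S / (2 * (M + 1)) with hε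
  have hε0 : 0 < ε := by positivity
  have hex : ∀ i j : I, ∃ B : ℝ, 0 < B ∧ (i ≠ j → ∀ K : ℕ, ‖SF (t i - t j) K‖ ≤
      ε * (K : ℝ) ^ (1 / 4 : ℝ) + B * (K : ℝ) ^ (1 / 8 : ℝ)) := by
    intro i j
    by_cases hij : i = j
    · exact ⟨1, one_pos, fun h => absurd hij h⟩
    · obtain ⟨B, hB, h⟩ := SF_small (sub_ne_zero.mpr (ht.ne hij)) hε0
      exact ⟨B, hB, fun _ => h⟩
  choose B hB hSF using hex
  set B' : ℝ := ∑ i, ∑ j, ‖xi i‖ * ‖xi j‖ * B i j with hB'
  have hB'0 : 0 ≤ B' := Finset.sum_nonneg fun i _ => Finset.sum_nonneg fun j _ => by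
    have := hB i j
    positivity
  have key : ∀ N : ℕ, S * AS N - (ε * M * (N : ℝ) ^ (1 / 4 : ℝ) + B' * (N : ℝ) ^ (1 / 8 : ℝ)) ≤
      QQ t xi N := by
    intro N
    have h1 : ((QQ t xi N : ℝ) : ℂ) - ((S * AS N : ℝ) : ℂ) =
        ∑ i, ∑ j, (if i = j then 0 else xi i * conj (xi j) * SF (t i - t j) N) := by
      have h2 : ((S * AS N : ℝ) : ℂ) =
          ∑ i, ∑ j, (if i = j then xi i * conj (xi j) * SF (t i - t j) N else 0) := by
        simp only [Finset.sum_ite_eq, Finset.mem_univ, if_true, sub_self, SF_zero]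
        rw [← Finset.sum_mul, hS]
        push_cast
        congr 1
        refine Finset.sum_congr rfl fun i _ => ?_
        rw [Complex.mul_conj, Complex.normSq_eq_norm_sq]
        push_cast
        rfl
      rw [QQ_expand, h2, ← Finset.sum_sub_distrib]
      refine Finset.sum_congr rfl fun i _ => ?_
      rw [← Finset.sum_sub_distrib]
      refine Finset.sum_congr rfl fun j _ => ?_
      split_ifs <;> simp
    have h3 : |QQ t xi N - S * AS N| ≤
        ε * M * (N : ℝ) ^ (1 / 4 : ℝ) + B' * (N : ℝ) ^ (1 / 8 : ℝ) := by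
      have h4 : |QQ t xi N - S * AS N| = ‖((QQ t xi N : ℝ) : ℂ) - ((S * AS N : ℝ) : ℂ)‖ := by
        rw [← Complex.ofReal_sub, Complex.norm_real, Real.norm_eq_abs]
      rw [h4, h1]
      refine (norm_sum_le _ _).trans ?_
      have h5 : ∀ i : I, ‖∑ j, (if i = j then 0 else xi i * conj (xi j) * SF (t i - t j) N)‖ ≤
          ∑ j, (‖xi i‖ * ‖xi j‖ * (ε * (N : ℝ) ^ (1 / 4 : ℝ)) +
            ‖xi i‖ * ‖xi j‖ * B i j * (N : ℝ) ^ (1 / 8 : ℝ)) := by
        intro i
        refine (norm_sum_le _ _).trans (Finset.sum_le_sum fun j _ => ?_)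
        have hBij := hB i j
        split_ifs with hij
        · rw [norm_zero]; positivity
        · rw [norm_mul, norm_mul, RCLike.norm_conj]
          have h6 := mul_le_mul_of_nonneg_left (hSF i j hij N)
            (by positivity : 0 ≤ ‖xi i‖ * ‖xi j‖)
          linarith
      refine (Finset.sum_le_sum fun i _ => h5 i).trans (le_of_eq ?_)
      simp only [Finset.sum_add_distrib, ← Finset.sum_mul]
      rw [← hM, ← hB']
      ring
    have := (abs_le.mp h3).1
    linarith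
  -- choose `N` large
  set a : ℝ := c * S / 2 with ha
  have ha0 : 0 < a := by positivity
  have hεM : ε * M ≤ a := by
    rw [hε, ha, div_mul_eq_mul_div, div_le_div_iff₀ (by positivity) (by norm_num)]
    have : 0 < c * S := by positivity
    nlinarith
  have hev : ∀ᶠ N : ℕ in atTop, (B' + |b| + 1) / a + 1 ≤ (N : ℝ) ^ (1 / 8 : ℝ) :=
    ((tendsto_rpow_atTop (by norm_num : (0 : ℝ) < 1 / 8)).comp
      tendsto_natCast_atTop_atTop).eventually_ge_atTop _
  obtain ⟨N, hN1, hN2⟩ := (hfreq.and_eventually hev).exists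
  refine ⟨N, ?_⟩
  have h7 : (N : ℝ) ^ (1 / 4 : ℝ) = ((N : ℝ) ^ (1 / 8 : ℝ)) ^ 2 := by
    rw [← Real.rpow_natCast, ← Real.rpow_mul (Nat.cast_nonneg _)]
    norm_num
  have h8 := key N
  set u : ℝ := (N : ℝ) ^ (1 / 8 : ℝ) with hu
  rw [h7] at hN1 h8
  have h9 : S * (c * u ^ 2) ≤ S * AS N := mul_le_mul_of_nonneg_left hN1 hS0.le
  have h10 : ε * M * u ^ 2 ≤ a * u ^ 2 := mul_le_mul_of_nonneg_right hεM (sq_nonneg _)
  have h11 : a * u ^ 2 - B' * u ≤ QQ t xi N := by
    have : S * (c * u ^ 2) = 2 * a * u ^ 2 := by rw [ha]; ring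
    linarith
  have h12 : B' + |b| + 1 ≤ a * (u - 1) := by
    have := (div_le_iff₀ ha0).mp (by linarith : (B' + |b| + 1) / a ≤ u - 1)
    linarith
  have hu1 : 1 ≤ u := by
    have : 0 ≤ (B' + |b| + 1) / a := by positivity
    linarith
  have h13 : b ≤ |b| := le_abs_self b
  have h14 : 0 ≤ |b| := abs_nonneg b
  have h15 : (|b| + 1) * 1 ≤ (a * u - B') * u := by
    apply mul_le_mul (by linarith) hu1 (by norm_num) (by linarith)
  linarith [h11, h15, (by ring : (a * u - B') * u = a * u ^ 2 - B' * u)]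

/-- **The arithmetic input.** For distinct reals `t i` and a nonzero vector `xi`, the sums
`∑ r₂(q) q^(-3/4) |∑ xi i e(√q t i)|²` over squarefree `q` diverge. -/
theorem T2 (ht : Function.Injective t) (hxi : xi ≠ 0) :
    Tendsto (fun N : ℕ => ∑ q ∈ (Finset.range (N + 1)).filter Squarefree,
      (gr q : ℝ) * (q : ℝ) ^ (-(3 / 4) : ℝ) * ‖∑ i, xi i * ee (√(q : ℝ) * t i)‖ ^ 2)
      atTop atTop := by
  refine (QQ_tendsto t xi ht hxi).congr fun N => ?_
  rw [QQ, Finset.sum_filter, Finset.sum_filter, Finset.sum_range_succ' _ N]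
  have h0 : ¬ Squarefree 0 := not_squarefree_zero
  rw [if_neg h0, add_zero]
  rfl

end

end

end Pool.Agent.Helper53.GC
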