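import Pool.Agent.Helper22.GC.Rep
import Pool.Agent.Helper22.GC.VdC
import Pool.Agent.Helper52.Circle.Small

/-!
Counting Gaussian integers, and exponential sums with weight `r₂(k) k^(-3/4)`.
-/

open Set
open scoped Real

namespace Pool.Agent.Helper53.GC

open Pool.Agent.Helper22.GC

noncomputable section

/-- The Gaussian integers of norm `k`, as a finset. -/
def gF (k : ℕ) : Finset GaussianInt := (gS_finite k).toFinset

lemma mem_gF {k : ℕ} {z : GaussianInt} : z ∈ gF k ↔ z.norm = k := by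
  rw [gF, Set.Finite.mem_toFinset]; rfl

lemma card_gF (k : ℕ) : (gF k).card = gr k := (Set.ncard_eq_toFinset_card _ _).symm

lemma gF_disj {j k : ℕ} (h : j ≠ k) : Disjoint (gF j) (gF k) := by
  rw [Finset.disjoint_left]
  intro z h1 h2
  rw [mem_gF] at h1 h2
  rw [h1] at h2
  exact h (by exact_mod_cast h2)

lemma card_disc (K : ℕ) :
    Nat.card {p : ℤ × ℤ // (p.1 : ℝ) ^ 2 + (p.2 : ℝ) ^ 2 ≤ (√(K : ℝ)) ^ 2} =
      ∑ k ∈ Finset.range (K + 1), gr k := by
  classical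
  have hinj : Function.Injective (fun z : GaussianInt => ((z.re, z.im) : ℤ × ℤ)) := by
    intro z w h
    have h1 := congrArg Prod.fst h
    have h2 := congrArg Prod.snd h
    exact Zsqrtd.ext h1 h2
  have h1 : ∀ p : ℤ × ℤ, p ∈ ((Finset.range (K + 1)).biUnion gF).image
      (fun z : GaussianInt => ((z.re, z.im) : ℤ × ℤ)) ↔
      (p.1 : ℝ) ^ 2 + (p.2 : ℝ) ^ 2 ≤ (√(K : ℝ)) ^ 2 := by
    intro p
    rw [Real.sq_sqrt (Nat.cast_nonneg K)]
    simp only [Finset.mem_image, Finset.mem_biUnion, Finset.mem_range, mem_gF]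
    constructor
    · rintro ⟨z, ⟨k, hk, hz⟩, hzp⟩
      rw [← hzp]
      rw [Zsqrtd.norm_def] at hz
      have h2 : ((z.re : ℝ)) ^ 2 + (z.im : ℝ) ^ 2 = k := by
        have : ((z.re * z.re - -1 * z.im * z.im : ℤ) : ℝ) = ((k : ℤ) : ℝ) := by rw [hz]
        push_cast at this
        linarith
      show ((z.re : ℝ)) ^ 2 + (z.im : ℝ) ^ 2 ≤ K
      rw [h2]
      exact_mod_cast Nat.lt_succ_iff.mp hk
    · intro hp
      have hp' : p.1 ^ 2 + p.2 ^ 2 ≤ (K : ℤ) := by exact_mod_cast hp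
      refine ⟨⟨p.1, p.2⟩, ⟨(p.1 ^ 2 + p.2 ^ 2).toNat, ?_, ?_⟩, rfl⟩
      · have h0 : 0 ≤ p.1 ^ 2 + p.2 ^ 2 := by positivity
        omega
      · rw [Zsqrtd.norm_def, Int.toNat_of_nonneg (by positivity)]
        ring
  rw [Nat.subtype_card _ h1, Finset.card_image_of_injective _ hinj,
    Finset.card_biUnion fun i _ j _ h => gF_disj h]
  exact Finset.sum_congr rfl fun k _ => card_gF k

/-- Summation by parts. -/
lemma parts (f a : ℕ → ℂ) (K : ℕ) :
    ∑ k ∈ Finset.range K, f (k + 1) * a (k + 1) =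
      f K * (∑ k ∈ Finset.range K, a (k + 1)) -
        ∑ k ∈ Finset.range K, (f (k + 1) - f k) * ∑ j ∈ Finset.range k, a (j + 1) := by
  induction K with
  | zero => simp
  | succ K ih =>
    rw [Finset.sum_range_succ, ih, Finset.sum_range_succ (fun k => a (k + 1)),
      Finset.sum_range_succ (fun k => (f (k + 1) - f k) * _)]
    ring

lemma sum_rpow_le {s : ℝ} (hs : 0 < s) (hs1 : s ≤ 1) (K : ℕ) :
    ∑ k ∈ Finset.range K, ((k + 1 : ℕ) : ℝ) ^ (s - 1) ≤ (K : ℝ) ^ s / s := by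
  induction K with
  | zero => simp [Real.zero_rpow hs.ne']
  | succ K ih =>
    rw [Finset.sum_range_succ]
    have hK : (0 : ℝ) < ((K + 1 : ℕ) : ℝ) := by positivity
    set x : ℝ := ((K + 1 : ℕ) : ℝ) with hx
    have hKx : (K : ℝ) = x * (1 + -(1 / x)) := by
      rw [hx]; push_cast; field_simp; ring
    have h1 : (1 + -(1 / x)) ^ s ≤ 1 + s * (-(1 / x)) := by
      apply rpow_one_add_le_one_add_mul_self _ hs.le hs1
      have : 1 / x ≤ 1 := by
        rw [div_le_one hK, hx]; push_cast; linarith [Nat.cast_nonneg (α := ℝ) K]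
      linarith
    have h2 : (K : ℝ) ^ s ≤ x ^ s * (1 + s * (-(1 / x))) := by
      rw [hKx, Real.mul_rpow hK.le]
      · exact mul_le_mul_of_nonneg_left h1 (by positivity)
      · have : 1 / x ≤ 1 := by
          rw [div_le_one hK, hx]; push_cast; linarith [Nat.cast_nonneg (α := ℝ) K]
        linarith
    have h3 : x ^ (s - 1) = x ^ s * (1 / x) := by
      rw [Real.rpow_sub_one hK.ne']; ring
    rw [h3]
    have h4 : (K : ℝ) ^ s / s ≤ (x ^ s * (1 + s * (-(1 / x)))) / s := by gcongr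
    calc ∑ k ∈ Finset.range K, ((k + 1 : ℕ) : ℝ) ^ (s - 1) + x ^ s * (1 / x)
        ≤ (x ^ s * (1 + s * (-(1 / x)))) / s + x ^ s * (1 / x) := by linarith
      _ = x ^ s / s := by field_simp; ring

/-- The error term in the count. -/
def cum (n : ℕ) : ℂ := ∑ k ∈ Finset.range n, (((gr (k + 1) : ℝ) - π : ℝ) : ℂ)

lemma gr_zero : gr 0 = 1 := by
  have : gS 0 = {0} := by
    ext z
    constructor
    · intro h
      have h1 : z.norm = ((0 : ℕ) : ℤ) := h
      rw [Zsqrtd.norm_def] at h1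
      push_cast at h1
      have h2 : z.re = 0 := by nlinarith [mul_self_nonneg z.re, mul_self_nonneg z.im]
      have h3 : z.im = 0 := by nlinarith [mul_self_nonneg z.re, mul_self_nonneg z.im]
      exact Zsqrtd.ext h2 h3
    · intro h
      rw [Set.mem_singleton_iff.mp h]
      show Zsqrtd.norm 0 = ((0 : ℕ) : ℤ)
      simp
  rw [gr, this, Set.ncard_singleton]

lemma exists_cum_bound : ∃ c : ℝ, 0 < c ∧ ∀ n : ℕ, ‖cum n‖ ≤ c * (n : ℝ) ^ (1 / 3 : ℝ) := by
  refine ⟨3 * π ^ (2 / 3 : ℝ) + 2, by positivity, fun n => ?_⟩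
  rcases Nat.eq_zero_or_pos n with h0 | hn
  · rw [h0, cum]; simp [Real.zero_rpow]
  have h1 := _root_.Helper52.Circle.explicit_two_thirds (R := √(n : ℝ)) (Real.sqrt_nonneg _)
  rw [card_disc, Real.sq_sqrt (Nat.cast_nonneg n), Finset.sum_range_succ', gr_zero] at h1
  have h2 : cum n = (((∑ k ∈ Finset.range n, gr (k + 1) : ℕ) : ℝ) - π * n : ℝ) := by
    rw [cum]
    push_cast
    rw [Finset.sum_sub_distrib]
    simp
    ring
  rw [h2, Complex.norm_real, Real.norm_eq_abs]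
  have h3 : (π * √(n : ℝ)) ^ (2 / 3 : ℝ) = π ^ (2 / 3 : ℝ) * (n : ℝ) ^ (1 / 3 : ℝ) := by
    rw [Real.mul_rpow Real.pi_pos.le (Real.sqrt_nonneg _), Real.sqrt_eq_rpow,
      ← Real.rpow_mul (Nat.cast_nonneg n)]
    norm_num
  rw [h3] at h1
  push_cast at h1 ⊢
  have h4 : (1 : ℝ) ≤ (n : ℝ) ^ (1 / 3 : ℝ) :=
    Real.one_le_rpow (by exact_mod_cast hn) (by norm_num)
  rw [abs_le] at h1 ⊢
  constructor
  · nlinarith [h1.1, h1.2]
  · nlinarith [h1.1, h1.2]

end

end Pool.Agent.Helper53.GC
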