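import Pool.Agent.Helper53.GC.T2a

/-!
Exponential sums with the weight `r₂(k) k^(-3/4)`.
-/

open Set
open scoped Real

namespace Pool.Agent.Helper53.GC

open Pool.Agent.Helper22.GC

noncomputable section

lemma hasDerivAt_ee_sqrt (t : ℝ) {x : ℝ} (hx : 0 < x) :
    HasDerivAt (fun x : ℝ => ee (√x * t))
      (ee (√x * t) * (2 * π * Complex.I * ((t / (2 * √x) : ℝ) : ℂ))) x := by
  have h1 : HasDerivAt (fun x : ℝ => √x * t) (t / (2 * √x)) x := by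
    refine ((Real.hasDerivAt_sqrt hx.ne').mul_const t).congr_deriv ?_
    ring
  have h2 := (h1.ofReal_comp).const_mul (2 * π * Complex.I)
  exact h2.cexp

lemma hasDerivAt_pow_ee (t s : ℝ) {x : ℝ} (hx : 0 < x) :
    HasDerivAt (fun x : ℝ => ((x ^ s : ℝ) : ℂ) * ee (√x * t))
      (((s * x ^ (s - 1) : ℝ) : ℂ) * ee (√x * t) +
        ((x ^ s : ℝ) : ℂ) * (ee (√x * t) * (2 * π * Complex.I * ((t / (2 * √x) : ℝ) : ℂ)))) x := by
  have h1 : HasDerivAt (fun x : ℝ => x ^ s) (s * x ^ (s - 1)) x :=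
    Real.hasDerivAt_rpow_const (Or.inl hx.ne')
  exact h1.ofReal_comp.mul (hasDerivAt_ee_sqrt t hx)

/-- The summand `x^(-3/4) e(√x t)`. -/
def W (t x : ℝ) : ℂ := ((x ^ (-(3 / 4) : ℝ) : ℝ) : ℂ) * ee (√x * t)

lemma norm_W (t : ℝ) {x : ℝ} (hx : 0 ≤ x) : ‖W t x‖ = x ^ (-(3 / 4) : ℝ) := by
  rw [W, norm_mul, norm_ee, Complex.norm_real, Real.norm_eq_abs, abs_of_nonneg (by positivity),
    mul_one]

lemma rpow_div_sqrt {x : ℝ} (hx : 0 < x) (s : ℝ) : x ^ s / √x = x ^ (s - 1 / 2) := by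
  rw [Real.sqrt_eq_rpow, ← Real.rpow_sub hx]

lemma rpow_neg_le {x y s : ℝ} (hx : 0 < x) (hxy : x ≤ y) (hs : s ≤ 0) : y ^ s ≤ x ^ s :=
  Real.rpow_le_rpow_of_nonpos hx hxy hs

lemma W_diff (t : ℝ) {n x y : ℝ} (hn : 1 ≤ n) (hx : x ∈ Icc n (n + 1)) (hy : y ∈ Icc n (n + 1)) :
    ‖W t y - W t x‖ ≤ (3 / 4 + π * |t|) * n ^ (-(5 / 4) : ℝ) := by
  have h0 : ∀ z ∈ Icc n (n + 1), 0 < z := fun z hz => by linarith [hz.1]
  have key := Convex.norm_image_sub_le_of_norm_hasDerivWithin_le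
    (f := W t) (C := (3 / 4 + π * |t|) * n ^ (-(5 / 4) : ℝ))
    (fun z hz => (hasDerivAt_pow_ee t (-(3 / 4)) (h0 z hz)).hasDerivWithinAt) ?_
    (convex_Icc n (n + 1)) hx hy
  · refine key.trans ?_
    have h1 : ‖y - x‖ ≤ 1 := by
      rw [Real.norm_eq_abs, abs_le]
      constructor <;> linarith [hx.1, hx.2, hy.1, hy.2]
    calc (3 / 4 + π * |t|) * n ^ (-(5 / 4) : ℝ) * ‖y - x‖
        ≤ (3 / 4 + π * |t|) * n ^ (-(5 / 4) : ℝ) * 1 := by gcongr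
      _ = _ := mul_one _
  · intro z hz
    have hz0 := h0 z hz
    have hz1 : 1 ≤ z := hn.trans hz.1
    have e1 : ‖((-(3 / 4) * z ^ (-(3 / 4) - 1 : ℝ) : ℝ) : ℂ) * ee (√z * t)‖ =
        3 / 4 * z ^ (-(7 / 4) : ℝ) := by
      rw [norm_mul, norm_ee, mul_one, Complex.norm_real, Real.norm_eq_abs, abs_mul,
        abs_of_nonneg (by positivity : 0 ≤ z ^ (-(3 / 4) - 1 : ℝ))]
      norm_num
    have e2 : ‖((z ^ (-(3 / 4) : ℝ) : ℝ) : ℂ) *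
        (ee (√z * t) * (2 * π * Complex.I * ((t / (2 * √z) : ℝ) : ℂ)))‖ =
        π * |t| * z ^ (-(5 / 4) : ℝ) := by
      rw [norm_mul, norm_mul, norm_ee, norm_mul, norm_mul, norm_mul, Complex.norm_I,
        Complex.norm_real, Complex.norm_real, Complex.norm_real, Real.norm_eq_abs,
        Real.norm_eq_abs, Real.norm_eq_abs, abs_of_nonneg (by positivity : 0 ≤ z ^ (-(3 / 4) : ℝ)),
        abs_of_pos Real.pi_pos, abs_div, abs_of_pos (by positivity : 0 < 2 * √z)]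
      have h2 : z ^ (-(5 / 4) : ℝ) = z ^ (-(3 / 4) : ℝ) / √z := by
        rw [rpow_div_sqrt hz0]; norm_num
      rw [h2]
      norm_num
      field_simp
    refine (norm_add_le _ _).trans ?_
    rw [e1, e2]
    have h3 : z ^ (-(7 / 4) : ℝ) ≤ n ^ (-(5 / 4) : ℝ) := by
      calc z ^ (-(7 / 4) : ℝ) ≤ z ^ (-(5 / 4) : ℝ) :=
            Real.rpow_le_rpow_of_exponent_le hz1 (by norm_num)
        _ ≤ n ^ (-(5 / 4) : ℝ) := rpow_neg_le (by linarith) hz.1 (by norm_num)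
    have h4 : z ^ (-(5 / 4) : ℝ) ≤ n ^ (-(5 / 4) : ℝ) := rpow_neg_le (by linarith) hz.1 (by norm_num)
    have h5 : 0 ≤ π * |t| := by positivity
    nlinarith [mul_le_mul_of_nonneg_left h4 h5]

/-- An approximate primitive of `W`. -/
def G (t x : ℝ) : ℂ := ((x ^ (-(1 / 4) : ℝ) : ℝ) : ℂ) * ee (√x * t) / (π * Complex.I * t)

lemma norm_G_le {t : ℝ} (ht : t ≠ 0) {x : ℝ} (hx : 1 ≤ x) : ‖G t x‖ ≤ 1 / (π * |t|) := by
  rw [G, norm_div, norm_mul, norm_ee, mul_one, norm_mul, norm_mul, Complex.norm_I,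
    Complex.norm_real, Complex.norm_real, Complex.norm_real, Real.norm_eq_abs, Real.norm_eq_abs,
    Real.norm_eq_abs, abs_of_pos Real.pi_pos, mul_one,
    abs_of_nonneg (by positivity : 0 ≤ x ^ (-(1 / 4) : ℝ))]
  have h1 : x ^ (-(1 / 4) : ℝ) ≤ 1 := Real.rpow_le_one_of_one_le_of_nonpos hx (by norm_num)
  gcongr

lemma G_diff {t : ℝ} (ht : t ≠ 0) {n : ℝ} (hn : 1 ≤ n) :
    ‖W t (n + 1) - (G t (n + 1) - G t n)‖ ≤
      (3 / 4 + π * |t| + 1 / (4 * (π * |t|))) * n ^ (-(5 / 4) : ℝ) := by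
  have h0 : ∀ z ∈ Icc n (n + 1), 0 < z := fun z hz => by linarith [hz.1]
  have ht' : (t : ℂ) ≠ 0 := by exact_mod_cast ht
  have hpi : (π : ℂ) ≠ 0 := by exact_mod_cast Real.pi_ne_zero
  have htn : 0 < |t| := abs_pos.mpr ht
  have key := Convex.norm_image_sub_le_of_norm_hasDerivWithin_le
    (f := fun x : ℝ => G t x - W t (n + 1) * (x : ℂ))
    (f' := fun x : ℝ => (((-(1 / 4) * x ^ (-(1 / 4) - 1 : ℝ) : ℝ) : ℂ) * ee (√x * t) +
        ((x ^ (-(1 / 4) : ℝ) : ℝ) : ℂ) *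
          (ee (√x * t) * (2 * π * Complex.I * ((t / (2 * √x) : ℝ) : ℂ)))) / (π * Complex.I * t) -
          W t (n + 1) * ((1 : ℝ) : ℂ))
    (C := (3 / 4 + π * |t| + 1 / (4 * (π * |t|))) * n ^ (-(5 / 4) : ℝ)) (s := Icc n (n + 1))
    (x := n) (y := n + 1) ?_ ?_
    (convex_Icc n (n + 1)) ⟨le_rfl, by linarith⟩ ⟨by linarith, le_rfl⟩
  · have h1 : ‖(n + 1 : ℝ) - n‖ = 1 := by norm_num
    rw [h1, mul_one] at key
    refine le_trans (le_of_eq ?_) key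
    rw [← norm_neg]
    congr 1
    push_cast
    ring
  · intro z hz
    have h2 := (hasDerivAt_pow_ee t (-(1 / 4)) (h0 z hz)).div_const (π * Complex.I * t)
    have h3 := ((hasDerivAt_id z).ofReal_comp).const_mul (W t (n + 1))
    exact (h2.sub h3).hasDerivWithinAt
  · intro z hz
    have hz0 := h0 z hz
    have hz1 : 1 ≤ z := hn.trans hz.1
    have e1 : (((-(1 / 4) * z ^ (-(1 / 4) - 1 : ℝ) : ℝ) : ℂ) * ee (√z * t) +
        ((z ^ (-(1 / 4) : ℝ) : ℝ) : ℂ) *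
          (ee (√z * t) * (2 * π * Complex.I * ((t / (2 * √z) : ℝ) : ℂ)))) / (π * Complex.I * t) -
          W t (n + 1) * ((1 : ℝ) : ℂ) = (W t z - W t (n + 1)) -
          ((1 / 4 * z ^ (-(5 / 4) : ℝ) : ℝ) : ℂ) * ee (√z * t) / (π * Complex.I * t) := by
      have h2 : z ^ (-(3 / 4) : ℝ) = z ^ (-(1 / 4) : ℝ) / √z := by
        rw [rpow_div_sqrt hz0]; norm_num
      have h3 : (-(1 / 4) - 1 : ℝ) = -(5 / 4) := by norm_num
      have h4 : ((√z : ℝ) : ℂ) ≠ 0 := by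
        have : √z ≠ 0 := by positivity
        exact_mod_cast this
      have h5 : W t z = ((z ^ (-(3 / 4) : ℝ) : ℝ) : ℂ) * ee (√z * t) := rfl
      rw [h5, h2, h3]
      push_cast
      field_simp
      ring
    have e2 : ‖((1 / 4 * z ^ (-(5 / 4) : ℝ) : ℝ) : ℂ) * ee (√z * t) / (π * Complex.I * t)‖ =
        1 / (4 * (π * |t|)) * z ^ (-(5 / 4) : ℝ) := by
      rw [norm_div, norm_mul, norm_ee, mul_one, norm_mul, norm_mul, Complex.norm_I,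
        Complex.norm_real, Complex.norm_real, Complex.norm_real, Real.norm_eq_abs, Real.norm_eq_abs,
        Real.norm_eq_abs, abs_of_pos Real.pi_pos, mul_one,
        abs_of_nonneg (by positivity : 0 ≤ 1 / 4 * z ^ (-(5 / 4) : ℝ))]
      field_simp
    rw [e1]
    refine (norm_sub_le _ _).trans ?_
    rw [e2]
    have h4 : z ^ (-(5 / 4) : ℝ) ≤ n ^ (-(5 / 4) : ℝ) := rpow_neg_le (by linarith) hz.1 (by norm_num)
    have h5 := W_diff t hn (x := n + 1) (y := z) ⟨by linarith, le_rfl⟩ hz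
    have h6 : 1 / (4 * (π * |t|)) * z ^ (-(5 / 4) : ℝ) ≤
        1 / (4 * (π * |t|)) * n ^ (-(5 / 4) : ℝ) := by gcongr
    linarith

/-- `∑ k^(-3/4) e(√k t)` is small for `t ≠ 0`. -/
lemma exists_sum_W {t : ℝ} (ht : t ≠ 0) : ∃ C : ℝ, 0 < C ∧ ∀ K : ℕ,
    ‖∑ k ∈ Finset.range K, W t ((k + 1 : ℕ) : ℝ)‖ ≤ C * (K : ℝ) ^ (1 / 12 : ℝ) := by
  set D : ℝ := 3 / 4 + π * |t| + 1 / (4 * (π * |t|)) with hD
  have htn : 0 < |t| := abs_pos.mpr ht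
  have hD0 : 0 < D := by positivity
  refine ⟨1 + 12 * D + 2 * (1 / (π * |t|)), by positivity, fun K => ?_⟩
  rcases Nat.eq_zero_or_pos K with h0 | hK
  · subst h0
    simp [Real.zero_rpow]
  obtain ⟨L, rfl⟩ : ∃ L, K = L + 1 := ⟨K - 1, by omega⟩
  have h1 : ∑ k ∈ Finset.range (L + 1), W t ((k + 1 : ℕ) : ℝ) =
      W t 1 + ∑ k ∈ Finset.range L, (W t (((k + 1 : ℕ) : ℝ) + 1) -
        (G t (((k + 1 : ℕ) : ℝ) + 1) - G t ((k + 1 : ℕ) : ℝ))) +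
        (G t ((L + 1 : ℕ) : ℝ) - G t 1) := by
    rw [Finset.sum_range_succ', Finset.sum_sub_distrib]
    have h2 : ∑ k ∈ Finset.range L, (G t (((k + 1 : ℕ) : ℝ) + 1) - G t ((k + 1 : ℕ) : ℝ)) =
        G t ((L + 1 : ℕ) : ℝ) - G t 1 := by
      have := Finset.sum_range_sub (fun k : ℕ => G t ((k + 1 : ℕ) : ℝ)) L
      rw [show ((0 + 1 : ℕ) : ℝ) = 1 by norm_num] at this
      rw [← this]
      refine Finset.sum_congr rfl fun k _ => ?_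
      push_cast
      rfl
    rw [h2]
    have h3 : ∑ k ∈ Finset.range L, W t ((k + 1 + 1 : ℕ) : ℝ) =
        ∑ k ∈ Finset.range L, W t (((k + 1 : ℕ) : ℝ) + 1) := by
      refine Finset.sum_congr rfl fun k _ => ?_
      push_cast
      rfl
    rw [h3]
    simp only [Nat.zero_add, Nat.cast_one]
    ring
  rw [h1]
  have h4 : ‖W t 1‖ ≤ 1 := by rw [norm_W t (by norm_num)]; simp
  have h5 : ‖∑ k ∈ Finset.range L, (W t (((k + 1 : ℕ) : ℝ) + 1) -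
        (G t (((k + 1 : ℕ) : ℝ) + 1) - G t ((k + 1 : ℕ) : ℝ)))‖ ≤
        12 * D * ((L + 1 : ℕ) : ℝ) ^ (1 / 12 : ℝ) := by
    refine (norm_sum_le _ _).trans ?_
    calc ∑ k ∈ Finset.range L, ‖W t (((k + 1 : ℕ) : ℝ) + 1) -
        (G t (((k + 1 : ℕ) : ℝ) + 1) - G t ((k + 1 : ℕ) : ℝ))‖
        ≤ ∑ k ∈ Finset.range L, D * ((k + 1 : ℕ) : ℝ) ^ ((1 / 12 : ℝ) - 1) := by
          refine Finset.sum_le_sum fun k _ => ?_
          have hk : (1 : ℝ) ≤ ((k + 1 : ℕ) : ℝ) := by push_cast; linarith [Nat.cast_nonneg (α := ℝ) k]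
          refine (G_diff ht hk).trans ?_
          refine mul_le_mul_of_nonneg_left ?_ hD0.le
          exact Real.rpow_le_rpow_of_exponent_le hk (by norm_num)
      _ = D * ∑ k ∈ Finset.range L, ((k + 1 : ℕ) : ℝ) ^ ((1 / 12 : ℝ) - 1) := by
          rw [Finset.mul_sum]
      _ ≤ D * ((L : ℝ) ^ (1 / 12 : ℝ) / (1 / 12)) := by
          refine mul_le_mul_of_nonneg_left ?_ hD0.le
          exact sum_rpow_le (by norm_num) (by norm_num) L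
      _ ≤ D * (((L + 1 : ℕ) : ℝ) ^ (1 / 12 : ℝ) / (1 / 12)) := by
          gcongr
          omega
      _ = _ := by ring
  have h6 : ‖G t ((L + 1 : ℕ) : ℝ) - G t 1‖ ≤ 2 * (1 / (π * |t|)) := by
    refine (norm_sub_le _ _).trans ?_
    have h7 := norm_G_le ht (x := ((L + 1 : ℕ) : ℝ)) (by push_cast; linarith [Nat.cast_nonneg (α := ℝ) L])
    have h8 := norm_G_le ht (x := 1) le_rfl
    linarith
  have h9 : (1 : ℝ) ≤ ((L + 1 : ℕ) : ℝ) ^ (1 / 12 : ℝ) :=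
    Real.one_le_rpow (by push_cast; linarith [Nat.cast_nonneg (α := ℝ) L]) (by norm_num)
  refine (norm_add_le _ _).trans ((add_le_add (norm_add_le _ _) le_rfl).trans ?_)
  have h10 : 0 ≤ 2 * (1 / (π * |t|)) := by positivity
  nlinarith [mul_le_mul_of_nonneg_left h9 h10]

/-- `∑ (r₂(k) - π) k^(-3/4) e(√k t)` is small for every `t`. -/
lemma exists_sum_W_cum (t : ℝ) : ∃ C : ℝ, 0 < C ∧ ∀ K : ℕ,
    ‖∑ k ∈ Finset.range K, W t ((k + 1 : ℕ) : ℝ) * (((gr (k + 1) : ℝ) - π : ℝ) : ℂ)‖ ≤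
      C * (K : ℝ) ^ (1 / 12 : ℝ) := by
  obtain ⟨c, hc, hcum⟩ := exists_cum_bound
  refine ⟨c + 12 * c * (3 / 4 + π * |t|), by positivity, fun K => ?_⟩
  have h1 := parts (fun k => W t (k : ℝ)) (fun k => (((gr k : ℝ) - π : ℝ) : ℂ)) K
  simp only at h1
  rw [h1]
  refine (norm_sub_le _ _).trans ?_
  have h2 : ‖W t (K : ℝ) * (∑ k ∈ Finset.range K, (((gr (k + 1) : ℝ) - π : ℝ) : ℂ))‖ ≤
      c * (K : ℝ) ^ (1 / 12 : ℝ) := by
    rcases Nat.eq_zero_or_pos K with h0 | hK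
    · subst h0
      simp [Real.zero_rpow]
    have hK1 : (1 : ℝ) ≤ K := by exact_mod_cast hK
    rw [norm_mul, norm_W t (Nat.cast_nonneg K)]
    have h3 := hcum K
    rw [cum] at h3
    calc (K : ℝ) ^ (-(3 / 4) : ℝ) * ‖∑ k ∈ Finset.range K, (((gr (k + 1) : ℝ) - π : ℝ) : ℂ)‖
        ≤ (K : ℝ) ^ (-(3 / 4) : ℝ) * (c * (K : ℝ) ^ (1 / 3 : ℝ)) := by gcongr
      _ = c * (K : ℝ) ^ (-(3 / 4) + 1 / 3 : ℝ) := by
          rw [Real.rpow_add (by linarith)]; ring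
      _ ≤ c * (K : ℝ) ^ (1 / 12 : ℝ) := by
          refine mul_le_mul_of_nonneg_left ?_ hc.le
          exact Real.rpow_le_rpow_of_exponent_le hK1 (by norm_num)
  have h4 : ‖∑ k ∈ Finset.range K, (W t ((k + 1 : ℕ) : ℝ) - W t (k : ℝ)) *
      ∑ j ∈ Finset.range k, (((gr (j + 1) : ℝ) - π : ℝ) : ℂ)‖ ≤
      12 * c * (3 / 4 + π * |t|) * (K : ℝ) ^ (1 / 12 : ℝ) := by
    refine (norm_sum_le _ _).trans ?_
    rcases Nat.eq_zero_or_pos K with h0 | hK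
    · subst h0
      simp [Real.zero_rpow]
    obtain ⟨L, rfl⟩ : ∃ L, K = L + 1 := ⟨K - 1, by omega⟩
    rw [Finset.sum_range_succ']
    simp only [Finset.range_zero, Finset.sum_empty, mul_zero, norm_zero, add_zero]
    calc ∑ k ∈ Finset.range L, ‖(W t ((k + 1 + 1 : ℕ) : ℝ) - W t ((k + 1 : ℕ) : ℝ)) *
        ∑ j ∈ Finset.range (k + 1), (((gr (j + 1) : ℝ) - π : ℝ) : ℂ)‖
        ≤ ∑ k ∈ Finset.range L, (c * (3 / 4 + π * |t|)) * ((k + 1 : ℕ) : ℝ) ^ ((1 / 12 : ℝ) - 1) := by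
          refine Finset.sum_le_sum fun k _ => ?_
          have hk : (1 : ℝ) ≤ ((k + 1 : ℕ) : ℝ) := by push_cast; linarith [Nat.cast_nonneg (α := ℝ) k]
          rw [norm_mul]
          have h5 := hcum (k + 1)
          rw [cum] at h5
          have h6 := W_diff t hk (x := ((k + 1 : ℕ) : ℝ)) (y := ((k + 1 + 1 : ℕ) : ℝ))
            ⟨le_rfl, by linarith⟩ ⟨by push_cast; linarith, by push_cast; linarith⟩
          calc ‖W t ((k + 1 + 1 : ℕ) : ℝ) - W t ((k + 1 : ℕ) : ℝ)‖ *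
              ‖∑ j ∈ Finset.range (k + 1), (((gr (j + 1) : ℝ) - π : ℝ) : ℂ)‖
              ≤ ((3 / 4 + π * |t|) * ((k + 1 : ℕ) : ℝ) ^ (-(5 / 4) : ℝ)) *
                (c * ((k + 1 : ℕ) : ℝ) ^ (1 / 3 : ℝ)) := by
                  refine mul_le_mul h6 h5 (norm_nonneg _) (by positivity)
            _ = (c * (3 / 4 + π * |t|)) * ((k + 1 : ℕ) : ℝ) ^ (-(5 / 4) + 1 / 3 : ℝ) := by
                rw [Real.rpow_add (by linarith)]; ring
            _ = (c * (3 / 4 + π * |t|)) * ((k + 1 : ℕ) : ℝ) ^ ((1 / 12 : ℝ) - 1) := by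
                norm_num
      _ = (c * (3 / 4 + π * |t|)) * ∑ k ∈ Finset.range L, ((k + 1 : ℕ) : ℝ) ^ ((1 / 12 : ℝ) - 1) := by
          rw [Finset.mul_sum]
      _ ≤ (c * (3 / 4 + π * |t|)) * ((L : ℝ) ^ (1 / 12 : ℝ) / (1 / 12)) := by
          refine mul_le_mul_of_nonneg_left ?_ (by positivity)
          exact sum_rpow_le (by norm_num) (by norm_num) L
      _ ≤ (c * (3 / 4 + π * |t|)) * (((L + 1 : ℕ) : ℝ) ^ (1 / 12 : ℝ) / (1 / 12)) := by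
          gcongr
          omega
      _ = _ := by ring
  calc _ ≤ c * (K : ℝ) ^ (1 / 12 : ℝ) + 12 * c * (3 / 4 + π * |t|) * (K : ℝ) ^ (1 / 12 : ℝ) :=
        add_le_add h2 h4
    _ = _ := by ring

/-- The exponential sum with weight `r₂(k) k^(-3/4)` is small for `t ≠ 0`. -/
theorem exists_sum_rho {t : ℝ} (ht : t ≠ 0) : ∃ C : ℝ, 0 < C ∧ ∀ K : ℕ,
    ‖∑ k ∈ Finset.range K, W t ((k + 1 : ℕ) : ℝ) * (gr (k + 1) : ℂ)‖ ≤
      C * (K : ℝ) ^ (1 / 12 : ℝ) := by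
  obtain ⟨C₁, hC₁, h₁⟩ := exists_sum_W ht
  obtain ⟨C₂, hC₂, h₂⟩ := exists_sum_W_cum t
  refine ⟨C₂ + π * C₁, by positivity, fun K => ?_⟩
  have h3 : ∑ k ∈ Finset.range K, W t ((k + 1 : ℕ) : ℝ) * (gr (k + 1) : ℂ) =
      (∑ k ∈ Finset.range K, W t ((k + 1 : ℕ) : ℝ) * (((gr (k + 1) : ℝ) - π : ℝ) : ℂ)) +
        π * ∑ k ∈ Finset.range K, W t ((k + 1 : ℕ) : ℝ) := by
    rw [Finset.mul_sum, ← Finset.sum_add_distrib]
    refine Finset.sum_congr rfl fun k _ => ?_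
    push_cast
    ring
  rw [h3]
  refine (norm_add_le _ _).trans ?_
  rw [norm_mul, Complex.norm_real, Real.norm_eq_abs, abs_of_pos Real.pi_pos]
  have h4 := mul_le_mul_of_nonneg_left (h₁ K) Real.pi_pos.le
  calc _ ≤ C₂ * (K : ℝ) ^ (1 / 12 : ℝ) + π * (C₁ * (K : ℝ) ^ (1 / 12 : ℝ)) := add_le_add (h₂ K) h4
    _ = _ := by ring

/-- Upper bound for the sum of the weights. -/
theorem exists_sum_upper : ∃ C : ℝ, 0 < C ∧ ∀ K : ℕ,
    ∑ k ∈ Finset.range K, (gr (k + 1) : ℝ) * ((k + 1 : ℕ) : ℝ) ^ (-(3 / 4) : ℝ) ≤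
      C * (K : ℝ) ^ (1 / 4 : ℝ) := by
  obtain ⟨C₂, hC₂, h₂⟩ := exists_sum_W_cum 0
  refine ⟨C₂ + 4 * π, by positivity, fun K => ?_⟩
  rcases Nat.eq_zero_or_pos K with h0 | hK
  · subst h0
    simp [Real.zero_rpow]
  have hK1 : (1 : ℝ) ≤ K := by exact_mod_cast hK
  have h3 : ∑ k ∈ Finset.range K, (gr (k + 1) : ℝ) * ((k + 1 : ℕ) : ℝ) ^ (-(3 / 4) : ℝ) =
      (∑ k ∈ Finset.range K, ((gr (k + 1) : ℝ) - π) * ((k + 1 : ℕ) : ℝ) ^ (-(3 / 4) : ℝ)) +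
        π * ∑ k ∈ Finset.range K, ((k + 1 : ℕ) : ℝ) ^ ((1 / 4 : ℝ) - 1) := by
    rw [Finset.mul_sum, ← Finset.sum_add_distrib]
    refine Finset.sum_congr rfl fun k _ => ?_
    rw [show ((1 / 4 : ℝ) - 1) = -(3 / 4) by norm_num]
    ring
  have h4 : ∑ k ∈ Finset.range K, ((gr (k + 1) : ℝ) - π) * ((k + 1 : ℕ) : ℝ) ^ (-(3 / 4) : ℝ) ≤
      C₂ * (K : ℝ) ^ (1 / 12 : ℝ) := by
    refine le_trans ?_ (h₂ K)
    have h5 : ∑ k ∈ Finset.range K, W 0 ((k + 1 : ℕ) : ℝ) * (((gr (k + 1) : ℝ) - π : ℝ) : ℂ) =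
        ((∑ k ∈ Finset.range K, ((gr (k + 1) : ℝ) - π) * ((k + 1 : ℕ) : ℝ) ^ (-(3 / 4) : ℝ) : ℝ) : ℂ) := by
      push_cast
      refine Finset.sum_congr rfl fun k _ => ?_
      rw [W, mul_zero, ee_zero, mul_one]
      push_cast
      ring
    rw [h5, Complex.norm_real]
    exact Real.le_norm_self _
  have h6 := sum_rpow_le (s := 1 / 4) (by norm_num) (by norm_num) K
  have h7 : (K : ℝ) ^ (1 / 12 : ℝ) ≤ (K : ℝ) ^ (1 / 4 : ℝ) :=
    Real.rpow_le_rpow_of_exponent_le hK1 (by norm_num)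
  rw [h3]
  have h8 := mul_le_mul_of_nonneg_left h6 Real.pi_pos.le
  have h9 := mul_le_mul_of_nonneg_left h7 hC₂.le
  calc _ ≤ C₂ * (K : ℝ) ^ (1 / 4 : ℝ) + π * ((K : ℝ) ^ (1 / 4 : ℝ) / (1 / 4)) :=
        add_le_add (h4.trans h9) h8
    _ = _ := by ring

/-- Lower bound for the sum of the weights. -/
theorem exists_sum_lower : ∃ C : ℝ, 0 < C ∧ ∀ K : ℕ, 1 ≤ K →
    π * (K : ℝ) ^ (1 / 4 : ℝ) - C ≤
    ∑ k ∈ Finset.range K, (gr (k + 1) : ℝ) * ((k + 1 : ℕ) : ℝ) ^ (-(3 / 4) : ℝ) := by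
  obtain ⟨c, hc, hcum⟩ := exists_cum_bound
  refine ⟨c, hc, fun K hK => ?_⟩
  have hK1 : (1 : ℝ) ≤ K := by exact_mod_cast hK
  have h1 : (K : ℝ) ^ (-(3 / 4) : ℝ) * ∑ k ∈ Finset.range K, (gr (k + 1) : ℝ) ≤
      ∑ k ∈ Finset.range K, (gr (k + 1) : ℝ) * ((k + 1 : ℕ) : ℝ) ^ (-(3 / 4) : ℝ) := by
    rw [Finset.mul_sum]
    refine Finset.sum_le_sum fun k hk => ?_
    rw [mul_comm]
    refine mul_le_mul_of_nonneg_left ?_ (Nat.cast_nonneg _)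
    refine rpow_neg_le (by positivity) ?_ (by norm_num)
    exact_mod_cast Finset.mem_range.mp hk
  refine le_trans ?_ h1
  have h2 := hcum K
  have h3 : cum K = ((∑ k ∈ Finset.range K, (gr (k + 1) : ℝ)) - π * K : ℝ) := by
    rw [cum]
    push_cast
    rw [Finset.sum_sub_distrib]
    simp
    ring
  rw [h3, Complex.norm_real, Real.norm_eq_abs, abs_le] at h2
  have h4 : (0 : ℝ) ≤ (K : ℝ) ^ (-(3 / 4) : ℝ) := by positivity
  have h5 : (K : ℝ) ^ (-(3 / 4) : ℝ) * (K : ℝ) = (K : ℝ) ^ (1 / 4 : ℝ) := by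
    rw [← Real.rpow_add_one (by positivity)]; norm_num
  have h6 : (K : ℝ) ^ (-(3 / 4) : ℝ) * (K : ℝ) ^ (1 / 3 : ℝ) ≤ 1 := by
    rw [← Real.rpow_add (by positivity)]
    exact Real.rpow_le_one_of_one_le_of_nonpos hK1 (by norm_num)
  have h7 : π * K - c * (K : ℝ) ^ (1 / 3 : ℝ) ≤ ∑ k ∈ Finset.range K, (gr (k + 1) : ℝ) := by
    linarith [h2.1]
  have h8 := mul_le_mul_of_nonneg_left h7 h4
  have h9 := mul_le_mul_of_nonneg_left h6 hc.le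
  calc π * (K : ℝ) ^ (1 / 4 : ℝ) - c
      ≤ π * (K : ℝ) ^ (1 / 4 : ℝ) - c * ((K : ℝ) ^ (-(3 / 4) : ℝ) * (K : ℝ) ^ (1 / 3 : ℝ)) := by
        linarith
    _ = (K : ℝ) ^ (-(3 / 4) : ℝ) * (π * K - c * (K : ℝ) ^ (1 / 3 : ℝ)) := by rw [← h5]; ring
    _ ≤ _ := h8

end

end Pool.Agent.Helper53.GC
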