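import Pool.Agent.Helper22.GC.Rep

/-!
Square factors of norms of Gaussian integers, and the bound `r₂(j² k) ≤ j^(7/10) r₂(k)`.
-/

open Set

namespace Pool.Agent.Helper53.GC

open Pool.Agent.Helper22.GC

noncomputable section

lemma norm_natCast' (n : ℕ) : ((n : GaussianInt)).norm = (n : ℤ) ^ 2 := by
  rw [Zsqrtd.norm_natCast]; ring

lemma prime_of_norm {p : ℕ} (hp : p.Prime) {w : GaussianInt} (hw : w.norm = p) : Prime w := by
  refine Irreducible.prime ⟨?_, ?_⟩
  · intro hu
    have h2 : w.norm = 1 := isUnit_mem_gS hu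
    rw [hw] at h2
    have : p = 1 := by exact_mod_cast h2
    exact hp.one_lt.ne' this
  · intro s t hst
    have h3 : s.norm * t.norm = p := by rw [← Zsqrtd.norm_mul, ← hst, hw]
    obtain ⟨c, hc⟩ := Int.eq_ofNat_of_zero_le (GaussianInt.norm_nonneg s)
    obtain ⟨d, hd⟩ := Int.eq_ofNat_of_zero_le (GaussianInt.norm_nonneg t)
    have hcd : c * d = p := by
      rw [hc, hd] at h3
      exact_mod_cast h3
    rcases (Nat.dvd_prime hp).mp (Dvd.intro _ hcd) with h | h
    · left
      rw [← Zsqrtd.norm_eq_one_iff' (by norm_num), hc, h]; rfl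
    · right
      have : d = 1 := by
        rw [h] at hcd
        exact Nat.eq_of_mul_eq_mul_left hp.pos (by rw [hcd, mul_one])
      rw [← Zsqrtd.norm_eq_one_iff' (by norm_num), hd, this]; rfl

lemma star_norm (z : GaussianInt) : (star z).norm = z.norm := by
  rw [Zsqrtd.norm_def, Zsqrtd.norm_def]
  simp

lemma dvd_of_natCast_dvd_star {p : ℕ} {z : GaussianInt} (h : (p : GaussianInt) ∣ star z) :
    (p : GaussianInt) ∣ z := by
  obtain ⟨c, hc⟩ := h
  refine ⟨star c, ?_⟩
  have := congrArg star hc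
  rw [star_star, star_mul] at this
  rw [this, mul_comm]
  simp

/-- The Gaussian divisors `α` of norm `p ^ 2` that detect `p ^ 2 ∣ N z`. -/
lemma exists_detect {p : ℕ} (hp : p.Prime) : ∃ A : Finset GaussianInt, A.card ≤ 3 ∧
    (p < 5 → A.card ≤ 1) ∧ (∀ α ∈ A, α.norm = (p : ℤ) ^ 2) ∧
    ∀ z : GaussianInt, (p : ℤ) ^ 2 ∣ z.norm → ∃ α ∈ A, α ∣ z := by
  classical
  by_cases h5 : p < 5
  · have h23 : p = 2 ∨ p = 3 := by
      interval_cases p
      · exact absurd hp (by norm_num)
      · exact absurd hp (by norm_num)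
      · left; rfl
      · right; rfl
      · exact absurd hp (by norm_num)
    refine ⟨{(p : GaussianInt)}, by simp, fun _ => by simp, ?_, ?_⟩
    · intro α hα
      rw [Finset.mem_singleton] at hα
      rw [hα, norm_natCast']
    · intro z hz
      refine ⟨(p : GaussianInt), Finset.mem_singleton_self _, ?_⟩
      rw [Zsqrtd.norm_def] at hz
      have key : (p : ℤ) ∣ z.re ∧ (p : ℤ) ∣ z.im := by
        rcases h23 with h | h
        · subst h
          have h1 : (z.re * z.re + z.im * z.im) % 4 = 0 := by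
            have h0 : ((2 : ℕ) : ℤ) ^ 2 ∣ z.re * z.re + z.im * z.im := by
              have e : z.re * z.re - -1 * z.im * z.im = z.re * z.re + z.im * z.im := by ring
              rwa [e] at hz
            have h4 : (4 : ℤ) ∣ z.re * z.re + z.im * z.im := by
              have : ((2 : ℕ) : ℤ) ^ 2 = 4 := by norm_num
              rwa [this] at h0
            exact Int.emod_eq_zero_of_dvd h4
          have ha : z.re % 4 = 0 ∨ z.re % 4 = 1 ∨ z.re % 4 = 2 ∨ z.re % 4 = 3 := by omega
          have hb : z.im % 4 = 0 ∨ z.im % 4 = 1 ∨ z.im % 4 = 2 ∨ z.im % 4 = 3 := by omega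
          have : z.re % 2 = 0 ∧ z.im % 2 = 0 := by
            rcases ha with ha | ha | ha | ha <;> rcases hb with hb | hb | hb | hb <;>
              simp [Int.add_emod, Int.mul_emod, ha, hb] at h1 <;> omega
          exact ⟨Int.dvd_of_emod_eq_zero this.1, Int.dvd_of_emod_eq_zero this.2⟩
        · subst h
          have h1 : (z.re * z.re + z.im * z.im) % 3 = 0 := by
            have h0 : ((3 : ℕ) : ℤ) ^ 2 ∣ z.re * z.re + z.im * z.im := by
              have e : z.re * z.re - -1 * z.im * z.im = z.re * z.re + z.im * z.im := by ring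
              rwa [e] at hz
            have h4 : (3 : ℤ) ∣ z.re * z.re + z.im * z.im := by
              refine dvd_trans ?_ h0
              norm_num
            exact Int.emod_eq_zero_of_dvd h4
          have ha : z.re % 3 = 0 ∨ z.re % 3 = 1 ∨ z.re % 3 = 2 := by omega
          have hb : z.im % 3 = 0 ∨ z.im % 3 = 1 ∨ z.im % 3 = 2 := by omega
          have : z.re % 3 = 0 ∧ z.im % 3 = 0 := by
            rcases ha with ha | ha | ha <;> rcases hb with hb | hb | hb <;>
              simp [Int.add_emod, Int.mul_emod, ha, hb] at h1 <;> omega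
          exact ⟨Int.dvd_of_emod_eq_zero this.1, Int.dvd_of_emod_eq_zero this.2⟩
      obtain ⟨⟨a, ha⟩, ⟨b, hb⟩⟩ := key
      refine ⟨⟨a, b⟩, ?_⟩
      apply Zsqrtd.ext
      · simp [ha]
      · simp [hb]
  · -- general primes
    have hdvd : ∀ z : GaussianInt, (p : ℤ) ^ 2 ∣ z.norm →
        (p : GaussianInt) * (p : GaussianInt) ∣ z * star z := by
      intro z hz
      rw [← Zsqrtd.norm_eq_mul_conj z]
      obtain ⟨c, hc⟩ := hz
      rw [hc]
      refine ⟨(c : GaussianInt), ?_⟩
      push_cast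
      ring
    by_cases hpr : Prime (p : GaussianInt)
    · refine ⟨{(p : GaussianInt)}, by simp, fun _ => by simp, ?_, ?_⟩
      · intro α hα
        rw [Finset.mem_singleton] at hα
        rw [hα, norm_natCast']
      · intro z hz
        refine ⟨(p : GaussianInt), Finset.mem_singleton_self _, ?_⟩
        have h1 : (p : GaussianInt) ∣ z * star z := (Dvd.intro _ rfl).trans (hdvd z hz)
        rcases hpr.dvd_or_dvd h1 with h | h
        · exact h
        · exact dvd_of_natCast_dvd_star h
    · have hirr : ¬ Irreducible (p : GaussianInt) := fun h => hpr h.prime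
      have hnu : ¬ IsUnit (p : GaussianInt) := by
        intro hu
        have h1 := isUnit_mem_gS hu
        have h2 : ((p : GaussianInt)).norm = 1 := h1
        rw [Zsqrtd.norm_natCast] at h2
        have : p * p = 1 := by exact_mod_cast h2
        nlinarith [hp.two_le]
      rw [irreducible_iff] at hirr
      push Not at hirr
      obtain ⟨x, y, hxy, hx, hy⟩ := hirr hnu
      have hnorm : x.norm * y.norm = (p : ℤ) ^ 2 := by
        rw [← Zsqrtd.norm_mul, ← hxy, norm_natCast']
      obtain ⟨a, ha⟩ := Int.eq_ofNat_of_zero_le (GaussianInt.norm_nonneg x)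
      obtain ⟨b, hb⟩ := Int.eq_ofNat_of_zero_le (GaussianInt.norm_nonneg y)
      have hab : a * b = p ^ 2 := by
        rw [ha, hb] at hnorm
        exact_mod_cast hnorm
      have ha1 : a ≠ 1 := by
        intro h
        apply hx
        rw [← Zsqrtd.norm_eq_one_iff' (by norm_num), ha, h]
        rfl
      have hb1 : b ≠ 1 := by
        intro h
        apply hy
        rw [← Zsqrtd.norm_eq_one_iff' (by norm_num), hb, h]
        rfl
      have hap : a = p ∧ b = p := (Nat.Prime.mul_eq_prime_sq_iff hp ha1 hb1).mp hab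
      have hxp : x.norm = p := by rw [ha, hap.1]
      have hyp : y.norm = p := by rw [hb, hap.2]
      have hxP := prime_of_norm hp hxp
      have hyP := prime_of_norm hp hyp
      have hx0 : x ≠ 0 := hxP.ne_zero
      have hy0 : y ≠ 0 := hyP.ne_zero
      -- star x = y up to equality
      have hstar : star x = y := by
        have h1 : x * star x = (p : GaussianInt) := by
          have h0 := Zsqrtd.norm_eq_mul_conj x
          rw [← h0, hxp]
          norm_cast
        rw [hxy] at h1
        exact mul_left_cancel₀ hx0 h1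
      have hstar' : star y = x := by rw [← hstar, star_star]
      -- a prime factor of the norm
      have hstep : ∀ z : GaussianInt, (p : ℤ) ∣ z.norm → x ∣ z ∨ y ∣ z := by
        intro z hz
        have h1 : x ∣ z * star z := by
          rw [← Zsqrtd.norm_eq_mul_conj z]
          obtain ⟨c, hc⟩ := hz
          rw [hc]
          refine ⟨y * (c : GaussianInt), ?_⟩
          rw [← mul_assoc, ← hxy]
          push_cast
          ring
        rcases hxP.dvd_or_dvd h1 with h | h
        · left; exact h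
        · right
          obtain ⟨c, hc⟩ := h
          refine ⟨star c, ?_⟩
          have := congrArg star hc
          rw [star_star, star_mul, hstar] at this
          rw [this, mul_comm]
      have hp0 : (p : ℤ) ≠ 0 := by exact_mod_cast hp.ne_zero
      refine ⟨{(p : GaussianInt), x * x, y * y}, Finset.card_le_three, fun h => absurd h h5,
        ?_, ?_⟩
      · intro α hα
        simp only [Finset.mem_insert, Finset.mem_singleton] at hα
        rcases hα with h | h | h
        · rw [h, norm_natCast']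
        · rw [h, Zsqrtd.norm_mul, hxp]; ring
        · rw [h, Zsqrtd.norm_mul, hyp]; ring
      · intro z hz
        have hz1 : (p : ℤ) ∣ z.norm := (Dvd.intro_left ((p : ℤ) ^ 1) (by ring)).trans hz
        rcases hstep z hz1 with ⟨w, hw⟩ | ⟨w, hw⟩
        · have h2 : (p : ℤ) ∣ w.norm := by
            rw [hw, Zsqrtd.norm_mul, hxp, pow_two] at hz
            exact (mul_dvd_mul_iff_left hp0).mp hz
          rcases hstep w h2 with ⟨v, hv⟩ | ⟨v, hv⟩
          · refine ⟨x * x, by simp, v, ?_⟩
            rw [hw, hv]; ring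
          · refine ⟨(p : GaussianInt), by simp, v, ?_⟩
            rw [hw, hv, hxy]; ring
        · have h2 : (p : ℤ) ∣ w.norm := by
            rw [hw, Zsqrtd.norm_mul, hyp, pow_two] at hz
            exact (mul_dvd_mul_iff_left hp0).mp hz
          rcases hstep w h2 with ⟨v, hv⟩ | ⟨v, hv⟩
          · refine ⟨(p : GaussianInt), by simp, v, ?_⟩
            rw [hw, hv, hxy]; ring
          · refine ⟨y * y, by simp, v, ?_⟩
            rw [hw, hv]; ring

lemma gr_sq_prime_le {p : ℕ} (hp : p.Prime) (k : ℕ) :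
    gr (p ^ 2 * k) ≤ 3 * gr k ∧ (p < 5 → gr (p ^ 2 * k) ≤ gr k) := by
  classical
  obtain ⟨A, hA3, hA1, hAn, hA⟩ := exists_detect hp
  have hp0 : ((p : ℤ) ^ 2) ≠ 0 := by
    have : (p : ℤ) ≠ 0 := by exact_mod_cast hp.ne_zero
    positivity
  have hsub : gS (p ^ 2 * k) ⊆ ⋃ a ∈ A, (fun u => a * u) '' gS k := by
    intro z hz
    have hz' : z.norm = ((p ^ 2 * k : ℕ) : ℤ) := hz
    obtain ⟨α, hα, w, hw⟩ := hA z (by rw [hz']; push_cast; exact Dvd.intro _ rfl)
    simp only [Set.mem_iUnion]
    refine ⟨α, hα, w, ?_, hw.symm⟩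
    show w.norm = k
    rw [hw, Zsqrtd.norm_mul, hAn α hα] at hz'
    push_cast at hz'
    exact mul_left_cancel₀ hp0 hz'
  have hfin : (⋃ a ∈ A, (fun u => a * u) '' gS k).Finite :=
    A.finite_toSet.biUnion fun a _ => (gS_finite k).image _
  have h1 : gr (p ^ 2 * k) ≤ A.card * gr k := by
    refine (Set.ncard_le_ncard hsub hfin).trans ?_
    refine (Finset.set_ncard_biUnion_le _ _).trans ?_
    refine (Finset.sum_le_card_nsmul _ _ (gr k) fun a _ => Set.ncard_image_le (gS_finite k)).trans ?_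
    simp
  refine ⟨h1.trans (Nat.mul_le_mul_right _ hA3), fun h => h1.trans ?_⟩
  calc A.card * gr k ≤ 1 * gr k := Nat.mul_le_mul_right _ (hA1 h)
    _ = gr k := one_mul _

lemma three_le_rpow {p : ℝ} (hp : 5 ≤ p) : (3 : ℝ) ≤ p ^ (7 / 10 : ℝ) := by
  have h1 : (3 : ℝ) = (3 ^ 10) ^ ((10 : ℕ) : ℝ)⁻¹ := by
    rw [Real.pow_rpow_inv_natCast (by norm_num) (by norm_num)]
  have h2 : p ^ (7 / 10 : ℝ) = (p ^ 7) ^ ((10 : ℕ) : ℝ)⁻¹ := by
    rw [← Real.rpow_natCast, ← Real.rpow_mul (by linarith)]
    norm_num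
  rw [h1, h2]
  apply Real.rpow_le_rpow (by norm_num) _ (by positivity)
  calc (3 : ℝ) ^ 10 ≤ 5 ^ 7 := by norm_num
    _ ≤ p ^ 7 := pow_le_pow_left₀ (by norm_num) hp 7

/-- `r₂(j² k) ≤ j ^ (7/10) r₂(k)`. -/
theorem gr_sq_mul_le (j k : ℕ) (hj : 0 < j) :
    (gr (j ^ 2 * k) : ℝ) ≤ (j : ℝ) ^ (7 / 10 : ℝ) * gr k := by
  revert hj k
  induction j using induction_on_primes with
  | zero => intro k hj; exact absurd hj (lt_irrefl 0)
  | one => intro k _; simp
  | prime_mul p a hp ih =>
    intro k hpa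
    have ha : 0 < a := Nat.pos_of_mul_pos_left hpa |> fun h => by
      rcases Nat.eq_zero_or_pos a with h0 | h0
      · rw [h0, mul_zero] at hpa; exact absurd hpa (lt_irrefl 0)
      · exact h0
    have e : (p * a) ^ 2 * k = p ^ 2 * (a ^ 2 * k) := by ring
    rw [e]
    obtain ⟨h3, h1⟩ := gr_sq_prime_le hp (a ^ 2 * k)
    have h4 : (gr (p ^ 2 * (a ^ 2 * k)) : ℝ) ≤ (p : ℝ) ^ (7 / 10 : ℝ) * gr (a ^ 2 * k) := by
      by_cases h5 : p < 5
      · have h6 : (gr (p ^ 2 * (a ^ 2 * k)) : ℝ) ≤ gr (a ^ 2 * k) := by exact_mod_cast h1 h5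
        have h7 : (1 : ℝ) ≤ (p : ℝ) ^ (7 / 10 : ℝ) :=
          Real.one_le_rpow (by exact_mod_cast hp.one_lt.le) (by norm_num)
        have h8 : (0 : ℝ) ≤ gr (a ^ 2 * k) := Nat.cast_nonneg _
        nlinarith
      · push Not at h5
        have h6 : (gr (p ^ 2 * (a ^ 2 * k)) : ℝ) ≤ 3 * gr (a ^ 2 * k) := by exact_mod_cast h3
        have h7 : (3 : ℝ) ≤ (p : ℝ) ^ (7 / 10 : ℝ) := three_le_rpow (by exact_mod_cast h5)
        have h8 : (0 : ℝ) ≤ gr (a ^ 2 * k) := Nat.cast_nonneg _
        nlinarith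
    have h9 := ih k ha
    have h10 : (0 : ℝ) ≤ (p : ℝ) ^ (7 / 10 : ℝ) := by positivity
    calc (gr (p ^ 2 * (a ^ 2 * k)) : ℝ) ≤ (p : ℝ) ^ (7 / 10 : ℝ) * gr (a ^ 2 * k) := h4
      _ ≤ (p : ℝ) ^ (7 / 10 : ℝ) * ((a : ℝ) ^ (7 / 10 : ℝ) * gr k) :=
          mul_le_mul_of_nonneg_left h9 h10
      _ = ((p * a : ℕ) : ℝ) ^ (7 / 10 : ℝ) * gr k := by
          push_cast
          rw [Real.mul_rpow (by positivity) (by positivity)]
          ring

end

end Pool.Agent.Helper53.GC
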