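import Pool.Agent.Helper53.GC.T2b
import Pool.Agent.Helper53.GC.Tgr

/-!
Sieving the exponential sums by squares of primes.
-/

open Set
open scoped Real Classical

namespace Pool.Agent.Helper53.GC

open Pool.Agent.Helper22.GC

noncomputable section

/-- The Gaussian integers with norm in `[1, K]`. -/
def DD (K : ℕ) : Finset GaussianInt := (Finset.range K).biUnion fun k => gF (k + 1)

lemma mem_DD {K : ℕ} {z : GaussianInt} : z ∈ DD K ↔ 1 ≤ z.norm ∧ z.norm ≤ K := by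
  rw [DD, Finset.mem_biUnion]
  constructor
  · rintro ⟨k, hk, hz⟩
    rw [mem_gF] at hz
    rw [Finset.mem_range] at hk
    rw [hz]
    push_cast
    constructor <;> omega
  · rintro ⟨h1, h2⟩
    refine ⟨z.norm.toNat - 1, ?_, ?_⟩
    · rw [Finset.mem_range]; omega
    · rw [mem_gF]; omega

lemma sum_DD (F : GaussianInt → ℂ) (K : ℕ) :
    ∑ z ∈ DD K, F z = ∑ k ∈ Finset.range K, ∑ z ∈ gF (k + 1), F z := by
  rw [DD, Finset.sum_biUnion]
  intro i _ j _ h
  exact gF_disj (by omega)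

/-- The weighted exponential sum over Gaussian integers. -/
def TT (f : GaussianInt → ℂ) (t : ℝ) (K : ℕ) : ℂ := ∑ z ∈ DD K, f z * W t (z.norm : ℝ)

lemma TT_norm (g : ℕ → ℂ) (t : ℝ) (K : ℕ) : TT (fun z => g z.norm.toNat) t K =
    ∑ k ∈ Finset.range K, g (k + 1) * (W t ((k + 1 : ℕ) : ℝ) * (gr (k + 1) : ℂ)) := by
  rw [TT, sum_DD]
  refine Finset.sum_congr rfl fun k _ => ?_
  have h1 : ∀ z ∈ gF (k + 1), g z.norm.toNat * W t (z.norm : ℝ) =
      g (k + 1) * W t ((k + 1 : ℕ) : ℝ) := by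
    intro z hz
    rw [mem_gF] at hz
    rw [hz, Int.toNat_natCast]
    norm_cast
  rw [Finset.sum_congr rfl h1, Finset.sum_const, card_gF, nsmul_eq_mul]
  ring

/-- Exponential sums are small. -/
def NEG (f : GaussianInt → ℂ) : Prop :=
  ∀ t : ℝ, t ≠ 0 → ∃ C : ℝ, 0 < C ∧ ∀ K : ℕ, ‖TT f t K‖ ≤ C * (K : ℝ) ^ (1 / 12 : ℝ)

lemma NEG_sub {f g : GaussianInt → ℂ} (hf : NEG f) (hg : NEG g) : NEG (fun z => f z - g z) := by
  intro t ht
  obtain ⟨C₁, hC₁, h₁⟩ := hf t ht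
  obtain ⟨C₂, hC₂, h₂⟩ := hg t ht
  refine ⟨C₁ + C₂, by positivity, fun K => ?_⟩
  have e : TT (fun z => f z - g z) t K = TT f t K - TT g t K := by
    rw [TT, TT, TT, ← Finset.sum_sub_distrib]
    exact Finset.sum_congr rfl fun z _ => by ring
  rw [e, add_mul]
  exact (norm_sub_le _ _).trans (add_le_add (h₁ K) (h₂ K))

/-- The indicator of the multiples of `α`. -/
def ind (α z : GaussianInt) : ℂ := if α ∣ z then 1 else 0

lemma W_scale (t : ℝ) {N x : ℝ} (hN : 0 ≤ N) (hx : 0 ≤ x) :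
    W t (N * x) = ((N ^ (-(3 / 4) : ℝ) : ℝ) : ℂ) * W (t * √N) x := by
  rw [W, W, Real.mul_rpow hN hx, Real.sqrt_mul hN]
  push_cast
  rw [show √N * √x * t = √x * (t * √N) by ring]
  ring

lemma norm_pos_of_ne {α : GaussianInt} (hα : α ≠ 0) : 0 < α.norm :=
  GaussianInt.norm_pos.mpr hα

lemma TT_ind {α : GaussianInt} (hα : α ≠ 0) (t : ℝ) (K : ℕ) :
    TT (ind α) t K = (((α.norm : ℝ) ^ (-(3 / 4) : ℝ) : ℝ) : ℂ) *
      TT (fun _ => 1) (t * √(α.norm : ℝ)) (K / α.norm.toNat) := by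
  have hN := norm_pos_of_ne hα
  have h1 : TT (ind α) t K = ∑ z ∈ (DD K).filter (fun z => α ∣ z), W t (z.norm : ℝ) := by
    rw [TT, Finset.sum_filter]
    refine Finset.sum_congr rfl fun z _ => ?_
    rw [ind]
    split_ifs <;> simp
  have h2 : (DD K).filter (fun z => α ∣ z) = (DD (K / α.norm.toNat)).image (fun y => α * y) := by
    ext z
    simp only [Finset.mem_filter, Finset.mem_image, mem_DD]
    have hdiv : ∀ y : GaussianInt, ((1 ≤ (α * y).norm ∧ (α * y).norm ≤ K) ↔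
        (1 ≤ y.norm ∧ y.norm ≤ ((K / α.norm.toNat : ℕ) : ℤ))) := by
      intro y
      obtain ⟨c, hc⟩ := Int.eq_ofNat_of_zero_le (GaussianInt.norm_nonneg y)
      obtain ⟨n, hn⟩ := Int.eq_ofNat_of_zero_le hN.le
      rw [Zsqrtd.norm_mul, hc, hn, Int.toNat_natCast]
      have hn0 : 0 < n := by rw [hn] at hN; exact_mod_cast hN
      constructor
      · rintro ⟨h3, h4⟩
        have h3' : 1 ≤ n * c := by exact_mod_cast h3
        have h4' : n * c ≤ K := by exact_mod_cast h4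
        constructor
        · have : 0 < c := Nat.pos_of_mul_pos_left (by omega : 0 < n * c) |> fun _ => by
            rcases Nat.eq_zero_or_pos c with h0 | h0
            · rw [h0] at h3'; simp at h3'
            · exact h0
          exact_mod_cast this
        · have : c ≤ K / n := by rw [Nat.le_div_iff_mul_le hn0]; rw [mul_comm]; exact h4'
          exact_mod_cast this
      · rintro ⟨h3, h4⟩
        have h3' : 1 ≤ c := by exact_mod_cast h3
        have h4' : c ≤ K / n := by exact_mod_cast h4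
        rw [Nat.le_div_iff_mul_le hn0] at h4'
        constructor
        · have : 1 ≤ n * c := Nat.mul_pos hn0 h3'
          exact_mod_cast this
        · have : n * c ≤ K := by rw [mul_comm]; exact h4'
          exact_mod_cast this
    constructor
    · rintro ⟨h3, ⟨y, rfl⟩⟩
      exact ⟨y, (hdiv y).mp h3, rfl⟩
    · rintro ⟨y, h3, rfl⟩
      exact ⟨(hdiv y).mpr h3, Dvd.intro _ rfl⟩
  rw [h1, h2, Finset.sum_image (fun x _ y _ h => mul_left_cancel₀ hα h), TT, Finset.mul_sum]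
  refine Finset.sum_congr rfl fun y _ => ?_
  have h3 : ((α * y).norm : ℝ) = (α.norm : ℝ) * (y.norm : ℝ) := by
    rw [Zsqrtd.norm_mul]; push_cast; rfl
  rw [h3, W_scale t (by exact_mod_cast hN.le) (by exact_mod_cast GaussianInt.norm_nonneg y)]
  ring

lemma NEG_ind {α : GaussianInt} (hα : α ≠ 0) : NEG (ind α) := by
  intro t ht
  have hN := norm_pos_of_ne hα
  have hN' : (0 : ℝ) < (α.norm : ℝ) := by exact_mod_cast hN
  have hN1 : (1 : ℝ) ≤ (α.norm : ℝ) := by exact_mod_cast hN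
  obtain ⟨C, hC, h⟩ := exists_sum_rho (t := t * √(α.norm : ℝ)) (by positivity)
  refine ⟨C, hC, fun K => ?_⟩
  rw [TT_ind hα, norm_mul, Complex.norm_real, Real.norm_eq_abs, abs_of_nonneg (by positivity)]
  have h1 : (α.norm : ℝ) ^ (-(3 / 4) : ℝ) ≤ 1 :=
    Real.rpow_le_one_of_one_le_of_nonpos hN1 (by norm_num)
  have h2 := TT_norm (fun _ => 1) (t * √(α.norm : ℝ)) (K / α.norm.toNat)
  simp only [one_mul] at h2
  rw [h2]
  have h3 := h (K / α.norm.toNat)
  have h4 : ((K / α.norm.toNat : ℕ) : ℝ) ^ (1 / 12 : ℝ) ≤ (K : ℝ) ^ (1 / 12 : ℝ) := by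
    apply Real.rpow_le_rpow (Nat.cast_nonneg _) _ (by norm_num)
    exact_mod_cast Nat.div_le_self _ _
  calc (α.norm : ℝ) ^ (-(3 / 4) : ℝ) * ‖∑ k ∈ Finset.range (K / α.norm.toNat),
        W (t * √(α.norm : ℝ)) ((k + 1 : ℕ) : ℝ) * (gr (k + 1) : ℂ)‖
      ≤ 1 * ‖∑ k ∈ Finset.range (K / α.norm.toNat),
        W (t * √(α.norm : ℝ)) ((k + 1 : ℕ) : ℝ) * (gr (k + 1) : ℂ)‖ := by gcongr
    _ ≤ C * ((K / α.norm.toNat : ℕ) : ℝ) ^ (1 / 12 : ℝ) := by rw [one_mul]; exact h3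
    _ ≤ C * (K : ℝ) ^ (1 / 12 : ℝ) := by gcongr

lemma ind_mul_ind (α β z : GaussianInt) : ind α z * ind β z = ind (EuclideanDomain.lcm α β) z := by
  rw [ind, ind, ind]
  by_cases h1 : α ∣ z <;> by_cases h2 : β ∣ z <;> simp [h1, h2, EuclideanDomain.lcm_dvd_iff]

lemma NEG_prod (S : Finset GaussianInt) (hS : ∀ α ∈ S, α ≠ 0) :
    ∀ β : GaussianInt, β ≠ 0 → NEG (fun z => ind β z * ∏ α ∈ S, (1 - ind α z)) := by
  induction S using Finset.induction_on with
  | empty =>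
    intro β hβ
    simpa using NEG_ind hβ
  | insert α S hα ih =>
    intro β hβ
    have hα0 : α ≠ 0 := hS α (Finset.mem_insert_self _ _)
    have ih' := ih (fun a ha => hS a (Finset.mem_insert_of_mem ha))
    have h1 := ih' β hβ
    have h2 := ih' (EuclideanDomain.lcm β α) (by
      rw [Ne, EuclideanDomain.lcm_eq_zero_iff]
      push Not
      exact ⟨hβ, hα0⟩)
    have h3 := NEG_sub h1 h2
    have e : (fun z => ind β z * ∏ a ∈ insert α S, (1 - ind a z)) = fun z =>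
        ind β z * ∏ a ∈ S, (1 - ind a z) -
          ind (EuclideanDomain.lcm β α) z * ∏ a ∈ S, (1 - ind a z) := by
      funext z
      rw [Finset.prod_insert hα, ← ind_mul_ind]
      ring
    rw [e]
    exact h3

/-- The sieved exponential sum is small. -/
theorem exists_sum_sieved (P : Finset ℕ) (hP : ∀ p ∈ P, p.Prime) {t : ℝ} (ht : t ≠ 0) :
    ∃ C : ℝ, 0 < C ∧ ∀ K : ℕ,
    ‖∑ k ∈ (Finset.range K).filter (fun k => ∀ p ∈ P, ¬ p ^ 2 ∣ k + 1),
      W t ((k + 1 : ℕ) : ℝ) * (gr (k + 1) : ℂ)‖ ≤ C * (K : ℝ) ^ (1 / 12 : ℝ) := by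
  have hex : ∀ p : ℕ, ∃ A : Finset GaussianInt, p.Prime → ((∀ α ∈ A, α.norm = (p : ℤ) ^ 2) ∧
      ∀ z : GaussianInt, (p : ℤ) ^ 2 ∣ z.norm → ∃ α ∈ A, α ∣ z) := by
    intro p
    by_cases hp : p.Prime
    · obtain ⟨A, _, _, h3, h4⟩ := exists_detect hp
      exact ⟨A, fun _ => ⟨h3, h4⟩⟩
    · exact ⟨∅, fun h => absurd h hp⟩
  choose A hA using hex
  set S : Finset GaussianInt := P.biUnion A with hS
  have hS0 : ∀ α ∈ S, α ≠ 0 := by
    intro α hα h0
    rw [hS, Finset.mem_biUnion] at hα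
    obtain ⟨p, hp, hαp⟩ := hα
    have h1 := (hA p (hP p hp)).1 α hαp
    rw [h0] at h1
    have h2 : (p : ℤ) ≠ 0 := by exact_mod_cast (hP p hp).ne_zero
    have h3 : (p : ℤ) ^ 2 = 0 := by rw [← h1]; simp
    exact h2 (pow_eq_zero_iff (two_ne_zero) |>.mp h3)
  obtain ⟨C, hC, h⟩ := NEG_prod S hS0 1 one_ne_zero t ht
  refine ⟨C, hC, fun K => ?_⟩
  obtain ⟨g, hg⟩ : ∃ g : ℕ → ℂ, ∀ n, g n = if (∀ p ∈ P, ¬ p ^ 2 ∣ n) then (1 : ℂ) else 0 :=
    ⟨_, fun _ => rfl⟩
  have hfun : (fun z => ind 1 z * ∏ α ∈ S, (1 - ind α z)) = fun z : GaussianInt =>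
      g z.norm.toNat := by
    funext z
    have hz0 := GaussianInt.norm_nonneg z
    have h1 : ind 1 z = 1 := by simp [ind]
    rw [h1, one_mul, hg]
    have hdvd : ∀ p : ℕ, p ^ 2 ∣ z.norm.toNat ↔ (p : ℤ) ^ 2 ∣ z.norm := by
      intro p
      rw [← Int.natCast_dvd_natCast, Int.toNat_of_nonneg hz0]
      push_cast
      rfl
    split_ifs with h2
    · refine Finset.prod_eq_one fun α hα => ?_
      rw [hS, Finset.mem_biUnion] at hα
      obtain ⟨p, hp, hαp⟩ := hα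
      have h3 : ¬ α ∣ z := by
        rintro ⟨c, rfl⟩
        apply h2 p hp
        rw [hdvd, Zsqrtd.norm_mul, (hA p (hP p hp)).1 α hαp]
        exact Dvd.intro _ rfl
      simp [ind, h3]
    · push Not at h2
      obtain ⟨p, hp, hpd⟩ := h2
      rw [hdvd] at hpd
      obtain ⟨α, hα, hαz⟩ := (hA p (hP p hp)).2 z hpd
      refine Finset.prod_eq_zero (i := α) ?_ ?_
      · rw [hS, Finset.mem_biUnion]
        exact ⟨p, hp, hα⟩
      · simp [ind, hαz]
  have h1 := h K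
  rw [hfun, TT_norm g t K] at h1
  rw [Finset.sum_filter]
  refine le_trans (le_of_eq ?_) h1
  congr 1
  refine Finset.sum_congr rfl fun k _ => ?_
  rw [hg]
  split_ifs <;> simp

end

end Pool.Agent.Helper53.GC
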