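import Pool.Agent.Helper53.GC.T2c

/-!
Squarefree numbers: the exponential sums are negligible against the mass.
-/

open Set Filter
open scoped Real Topology

namespace Pool.Agent.Helper53.GC

open Pool.Agent.Helper22.GC

noncomputable section

/-- The weight `r₂(n) n^(-3/4)`. -/
def rr (n : ℕ) : ℝ := (gr n : ℝ) * (n : ℝ) ^ (-(3 / 4) : ℝ)

lemma rr_nonneg (n : ℕ) : 0 ≤ rr n := by rw [rr]; positivity

lemma rr_sq_mul_le {j m : ℕ} (hj : 0 < j) : rr (j ^ 2 * m) ≤ (j : ℝ) ^ (-(4 / 5) : ℝ) * rr m := by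
  have hj' : (0 : ℝ) < j := by exact_mod_cast hj
  rw [rr, rr]
  push_cast
  rw [Real.mul_rpow (by positivity) (by positivity), ← Real.rpow_natCast (j : ℝ) 2,
    ← Real.rpow_mul hj'.le]
  have h1 := gr_sq_mul_le j m hj
  have h2 : (j : ℝ) ^ (7 / 10 : ℝ) * (j : ℝ) ^ (((2 : ℕ) : ℝ) * -(3 / 4)) =
      (j : ℝ) ^ (-(4 / 5) : ℝ) := by
    rw [← Real.rpow_add hj']; norm_num
  calc (gr (j ^ 2 * m) : ℝ) * ((j : ℝ) ^ (((2 : ℕ) : ℝ) * -(3 / 4)) * (m : ℝ) ^ (-(3 / 4) : ℝ))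
      ≤ ((j : ℝ) ^ (7 / 10 : ℝ) * gr m) *
        ((j : ℝ) ^ (((2 : ℕ) : ℝ) * -(3 / 4)) * (m : ℝ) ^ (-(3 / 4) : ℝ)) := by gcongr
    _ = ((j : ℝ) ^ (7 / 10 : ℝ) * (j : ℝ) ^ (((2 : ℕ) : ℝ) * -(3 / 4))) *
        ((gr m : ℝ) * (m : ℝ) ^ (-(3 / 4) : ℝ)) := by ring
    _ = _ := by rw [h2]

lemma sum_multiples {j : ℕ} (hj : 0 < j) (Q : ℕ → Prop) [DecidablePred Q] (K : ℕ) :
    ∑ k ∈ Finset.range K, (if j ^ 2 ∣ k + 1 ∧ Q ((k + 1) / j ^ 2) then rr (k + 1) else 0) ≤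
      (j : ℝ) ^ (-(4 / 5) : ℝ) *
        ∑ m ∈ Finset.range (K / j ^ 2), (if Q (m + 1) then rr (m + 1) else 0) := by
  have hj2 : 0 < j ^ 2 := by positivity
  have h1 : (Finset.range K).filter (fun k => j ^ 2 ∣ k + 1 ∧ Q ((k + 1) / j ^ 2)) =
      ((Finset.range (K / j ^ 2)).filter (fun m => Q (m + 1))).image
        (fun m => j ^ 2 * (m + 1) - 1) := by
    ext k
    simp only [Finset.mem_filter, Finset.mem_image, Finset.mem_range]
    constructor
    · rintro ⟨hk, ⟨c, hc⟩, hQ⟩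
      have hc0 : 0 < c := by
        rcases Nat.eq_zero_or_pos c with h | h
        · rw [h] at hc; omega
        · exact h
      rw [hc, Nat.mul_div_cancel_left _ hj2] at hQ
      refine ⟨c - 1, ⟨?_, ?_⟩, ?_⟩
      · have : c ≤ K / j ^ 2 := by
          rw [Nat.le_div_iff_mul_le hj2, mul_comm, ← hc]
          omega
        omega
      · rwa [Nat.sub_add_cancel hc0]
      · rw [Nat.sub_add_cancel hc0, ← hc]
        omega
    · rintro ⟨m, ⟨hm, hQ⟩, rfl⟩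
      have h2 : m + 1 ≤ K / j ^ 2 := hm
      rw [Nat.le_div_iff_mul_le hj2] at h2
      have h3 : 0 < j ^ 2 * (m + 1) := by positivity
      have h4 : j ^ 2 * (m + 1) - 1 + 1 = j ^ 2 * (m + 1) := by omega
      rw [h4, Nat.mul_div_cancel_left _ hj2]
      refine ⟨?_, Dvd.intro _ rfl, hQ⟩
      rw [mul_comm] at h2
      omega
  rw [← Finset.sum_filter, h1, Finset.sum_image, ← Finset.sum_filter, Finset.mul_sum]
  · refine Finset.sum_le_sum fun m _ => ?_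
    have h3 : 0 < j ^ 2 * (m + 1) := by positivity
    have h4 : j ^ 2 * (m + 1) - 1 + 1 = j ^ 2 * (m + 1) := by omega
    rw [h4]
    exact rr_sq_mul_le hj
  · intro a _ b _ hab
    simp only at hab
    have h3 : 0 < j ^ 2 * (a + 1) := by positivity
    have h4 : 0 < j ^ 2 * (b + 1) := by positivity
    have h5 : j ^ 2 * (a + 1) = j ^ 2 * (b + 1) := by omega
    have := Nat.eq_of_mul_eq_mul_left hj2 h5
    omega

/-- The squarefree exponential sum. -/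
def SF (t : ℝ) (K : ℕ) : ℂ :=
  ∑ k ∈ (Finset.range K).filter (fun k => Squarefree (k + 1)),
    W t ((k + 1 : ℕ) : ℝ) * (gr (k + 1) : ℂ)

/-- The squarefree mass. -/
def AS (K : ℕ) : ℝ := ∑ k ∈ (Finset.range K).filter (fun k => Squarefree (k + 1)), rr (k + 1)

lemma norm_W_gr (t : ℝ) (k : ℕ) : ‖W t ((k + 1 : ℕ) : ℝ) * (gr (k + 1) : ℂ)‖ = rr (k + 1) := by
  rw [norm_mul, norm_W t (Nat.cast_nonneg _), rr, Complex.norm_natCast, mul_comm]

lemma div_rpow_le (K j : ℕ) (hj : 0 < j) {s : ℝ} (hs : 0 ≤ s) :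
    ((K / j ^ 2 : ℕ) : ℝ) ^ s ≤ (K : ℝ) ^ s * (j : ℝ) ^ (-2 * s) := by
  have hj' : (0 : ℝ) < j := by exact_mod_cast hj
  have h1 : ((K / j ^ 2 : ℕ) : ℝ) ≤ (K : ℝ) / ((j ^ 2 : ℕ) : ℝ) := Nat.cast_div_le
  calc ((K / j ^ 2 : ℕ) : ℝ) ^ s ≤ ((K : ℝ) / ((j ^ 2 : ℕ) : ℝ)) ^ s :=
        Real.rpow_le_rpow (Nat.cast_nonneg _) h1 hs
    _ = (K : ℝ) ^ s * (j : ℝ) ^ (-2 * s) := by
        rw [Real.div_rpow (Nat.cast_nonneg _) (Nat.cast_nonneg _), div_eq_mul_inv]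
        congr 1
        push_cast
        rw [← Real.rpow_natCast (j : ℝ) 2, ← Real.rpow_mul hj'.le, ← Real.rpow_neg hj'.le]
        norm_num

lemma SF_small {t : ℝ} (ht : t ≠ 0) {ε : ℝ} (hε : 0 < ε) : ∃ B : ℝ, 0 < B ∧ ∀ K : ℕ,
    ‖SF t K‖ ≤ ε * (K : ℝ) ^ (1 / 4 : ℝ) + B * (K : ℝ) ^ (1 / 8 : ℝ) := by
  obtain ⟨C, hC, hup⟩ := exists_sum_upper
  have hsum : Summable (fun j : ℕ => (j : ℝ) ^ (-(13 / 10) : ℝ)) :=
    Real.summable_nat_rpow.mpr (by norm_num)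
  obtain ⟨s, hs⟩ := summable_iff_vanishing_norm.mp hsum (ε / C) (by positivity)
  obtain ⟨y, hy⟩ : ∃ y : ℕ, ∀ j ∈ s, j < y := by
    refine ⟨s.sup id + 1, fun j hj => ?_⟩
    exact Nat.lt_succ_of_le (Finset.le_sup (f := id) hj)
  obtain ⟨B, hB, hsv⟩ := exists_sum_sieved ((Finset.range y).filter Nat.Prime)
    (fun p hp => (Finset.mem_filter.mp hp).2) ht
  refine ⟨B, hB, fun K => ?_⟩
  set P := (Finset.range y).filter Nat.Prime with hP
  set S1 := (Finset.range K).filter (fun k => ∀ p ∈ P, ¬ p ^ 2 ∣ k + 1) with hS1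
  set S2 := (Finset.range K).filter (fun k => Squarefree (k + 1)) with hS2
  have hsub : S2 ⊆ S1 := by
    intro k hk
    rw [hS2, Finset.mem_filter] at hk
    rw [hS1, Finset.mem_filter]
    refine ⟨hk.1, fun p hp hd => ?_⟩
    have hpp := (Finset.mem_filter.mp hp).2
    rw [pow_two] at hd
    exact (Nat.squarefree_iff_prime_squarefree.mp hk.2) p hpp hd
  have h1 : SF t K = (∑ k ∈ S1, W t ((k + 1 : ℕ) : ℝ) * (gr (k + 1) : ℂ)) -
      ∑ k ∈ S1 \ S2, W t ((k + 1 : ℕ) : ℝ) * (gr (k + 1) : ℂ) := by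
    rw [SF, ← Finset.sum_sdiff hsub]
    ring
  rw [h1]
  refine (norm_sub_le _ _).trans ?_
  have h2 : ‖∑ k ∈ S1 \ S2, W t ((k + 1 : ℕ) : ℝ) * (gr (k + 1) : ℂ)‖ ≤
      ε * (K : ℝ) ^ (1 / 4 : ℝ) := by
    refine (norm_sum_le _ _).trans ?_
    have h3 : ∀ k ∈ S1 \ S2, ‖W t ((k + 1 : ℕ) : ℝ) * (gr (k + 1) : ℂ)‖ ≤
        ∑ j ∈ Finset.Ico (max y 1) (K + 1),
          (if j ^ 2 ∣ k + 1 ∧ (fun _ : ℕ => True) ((k + 1) / j ^ 2) then rr (k + 1) else 0) := by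
      intro k hk
      rw [Finset.mem_sdiff, hS1, hS2, Finset.mem_filter, Finset.mem_filter] at hk
      obtain ⟨⟨hk1, hk2⟩, hk3⟩ := hk
      have hk4 : ¬ Squarefree (k + 1) := fun h => hk3 ⟨hk1, h⟩
      rw [Nat.squarefree_iff_prime_squarefree] at hk4
      push Not at hk4
      obtain ⟨p, hp, hpd⟩ := hk4
      rw [← pow_two] at hpd
      have hpy : y ≤ p := by
        by_contra hlt
        push Not at hlt
        exact hk2 p (Finset.mem_filter.mpr ⟨Finset.mem_range.mpr hlt, hp⟩) hpd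
      have hpK : p ≤ K := by
        have h4 : p ^ 2 ≤ k + 1 := Nat.le_of_dvd (Nat.succ_pos k) hpd
        have h5 : p ≤ p ^ 2 := by nlinarith [hp.two_le]
        have h6 := Finset.mem_range.mp hk1
        omega
      rw [norm_W_gr]
      have hpm : p ∈ Finset.Ico (max y 1) (K + 1) := by
        rw [Finset.mem_Ico]
        have := hp.two_le
        omega
      refine le_trans ?_ (Finset.single_le_sum (f := fun j => if j ^ 2 ∣ k + 1 ∧
        (fun _ : ℕ => True) ((k + 1) / j ^ 2) then rr (k + 1) else 0) (fun j _ => ?_) hpm)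
      · simp [hpd]
      · beta_reduce
        split_ifs
        · exact rr_nonneg _
        · exact le_rfl
    refine (Finset.sum_le_sum h3).trans ?_
    rw [Finset.sum_comm]
    have h4 : ∀ j ∈ Finset.Ico (max y 1) (K + 1), ∑ k ∈ S1 \ S2,
        (if j ^ 2 ∣ k + 1 ∧ (fun _ : ℕ => True) ((k + 1) / j ^ 2) then rr (k + 1) else 0) ≤
        C * (K : ℝ) ^ (1 / 4 : ℝ) * (j : ℝ) ^ (-(13 / 10) : ℝ) := by
      intro j hj
      rw [Finset.mem_Ico] at hj
      have hj0 : 0 < j := by omega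
      have hj' : (0 : ℝ) < j := by exact_mod_cast hj0
      have h5 : ∑ k ∈ S1 \ S2,
        (if j ^ 2 ∣ k + 1 ∧ (fun _ : ℕ => True) ((k + 1) / j ^ 2) then rr (k + 1) else 0) ≤
        ∑ k ∈ Finset.range K,
        (if j ^ 2 ∣ k + 1 ∧ (fun _ : ℕ => True) ((k + 1) / j ^ 2) then rr (k + 1) else 0) := by
        refine Finset.sum_le_sum_of_subset_of_nonneg ?_ ?_
        · exact Finset.sdiff_subset.trans (Finset.filter_subset _ _)
        · intro k _ _
          split_ifs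
          · exact rr_nonneg _
          · exact le_rfl
      refine h5.trans ((sum_multiples hj0 (fun _ => True) K).trans ?_)
      simp only [if_true]
      have h6 : ∑ m ∈ Finset.range (K / j ^ 2), rr (m + 1) ≤
          C * ((K / j ^ 2 : ℕ) : ℝ) ^ (1 / 4 : ℝ) := by
        refine le_trans (le_of_eq ?_) (hup (K / j ^ 2))
        exact Finset.sum_congr rfl fun m _ => rfl
      have h7 := div_rpow_le K j hj0 (s := 1 / 4) (by norm_num)
      calc (j : ℝ) ^ (-(4 / 5) : ℝ) * ∑ m ∈ Finset.range (K / j ^ 2), rr (m + 1)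
          ≤ (j : ℝ) ^ (-(4 / 5) : ℝ) * (C * ((K : ℝ) ^ (1 / 4 : ℝ) * (j : ℝ) ^ (-2 * (1 / 4) : ℝ))) := by
            refine mul_le_mul_of_nonneg_left (h6.trans ?_) (by positivity)
            gcongr
        _ = C * (K : ℝ) ^ (1 / 4 : ℝ) * (j : ℝ) ^ (-(4 / 5) + -2 * (1 / 4) : ℝ) := by
            rw [Real.rpow_add hj']; ring
        _ = _ := by norm_num
    refine (Finset.sum_le_sum h4).trans ?_
    rw [← Finset.mul_sum]
    have h8 := hs (Finset.Ico (max y 1) (K + 1)) (by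
      rw [Finset.disjoint_left]
      intro a ha has
      rw [Finset.mem_Ico] at ha
      have := hy a has
      omega)
    rw [Real.norm_eq_abs, abs_of_nonneg (Finset.sum_nonneg fun j _ => by positivity)] at h8
    calc C * (K : ℝ) ^ (1 / 4 : ℝ) * ∑ j ∈ Finset.Ico (max y 1) (K + 1), (j : ℝ) ^ (-(13 / 10) : ℝ)
        ≤ C * (K : ℝ) ^ (1 / 4 : ℝ) * (ε / C) := by gcongr
      _ = ε * (K : ℝ) ^ (1 / 4 : ℝ) := by field_simp
  have h9 := hsv K
  have h10 : (K : ℝ) ^ (1 / 12 : ℝ) ≤ (K : ℝ) ^ (1 / 8 : ℝ) := by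
    rcases Nat.eq_zero_or_pos K with h0 | hK
    · subst h0; simp [Real.zero_rpow]
    · exact Real.rpow_le_rpow_of_exponent_le (by exact_mod_cast hK) (by norm_num)
  have h11 := mul_le_mul_of_nonneg_left h10 hB.le
  linarith

lemma AS_nonneg (K : ℕ) : 0 ≤ AS K := Finset.sum_nonneg fun _ _ => rr_nonneg _

lemma AS_mono : Monotone AS := by
  intro a b hab
  refine Finset.sum_le_sum_of_subset_of_nonneg ?_ fun _ _ _ => rr_nonneg _
  intro k hk
  rw [Finset.mem_filter, Finset.mem_range] at hk ⊢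
  exact ⟨by omega, hk.2⟩

lemma AS_frequently : ∃ c : ℝ, 0 < c ∧ ∃ᶠ K : ℕ in atTop, c * (K : ℝ) ^ (1 / 4 : ℝ) ≤ AS K := by
  have hsum : Summable (fun j : ℕ => (j : ℝ) ^ (-(13 / 10) : ℝ)) :=
    Real.summable_nat_rpow.mpr (by norm_num)
  have hsum' : Summable (fun j : ℕ => (j : ℝ) ^ (-(21 / 20) : ℝ)) :=
    Real.summable_nat_rpow.mpr (by norm_num)
  set Z := ∑' j : ℕ, (j : ℝ) ^ (-(13 / 10) : ℝ) with hZ
  set Z' := ∑' j : ℕ, (j : ℝ) ^ (-(21 / 20) : ℝ) with hZ'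
  have hZ0 : 0 < Z := by
    have := hsum.sum_le_tsum {1} (fun j _ => by positivity)
    simp at this
    linarith
  have hZ'0 : 0 ≤ Z' := tsum_nonneg fun j => by positivity
  refine ⟨1 / Z, by positivity, ?_⟩
  by_contra hcon
  rw [not_frequently] at hcon
  simp only [not_le] at hcon
  obtain ⟨K₀, hK₀⟩ := eventually_atTop.mp hcon
  set B := AS K₀ with hB
  have hB0 : 0 ≤ B := AS_nonneg _
  have h1 : ∀ n : ℕ, AS n ≤ 1 / Z * (n : ℝ) ^ (1 / 4 : ℝ) + B * (n : ℝ) ^ (1 / 8 : ℝ) := by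
    intro n
    rcases Nat.eq_zero_or_pos n with h0 | hn
    · subst h0
      simp [AS, Real.zero_rpow]
    have hn1 : (1 : ℝ) ≤ (n : ℝ) ^ (1 / 8 : ℝ) :=
      Real.one_le_rpow (by exact_mod_cast hn) (by norm_num)
    rcases le_or_gt K₀ n with h | h
    · have h2 := hK₀ n h
      have h3 : 0 ≤ B * (n : ℝ) ^ (1 / 8 : ℝ) := by positivity
      linarith
    · have h2 : AS n ≤ B := AS_mono h.le
      have h3 : 0 ≤ 1 / Z * (n : ℝ) ^ (1 / 4 : ℝ) := by positivity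
      nlinarith
  obtain ⟨C, hC, hlow⟩ := exists_sum_lower
  have h2 : ∀ K : ℕ, ∑ k ∈ Finset.range K, rr (k + 1) ≤
      (K : ℝ) ^ (1 / 4 : ℝ) + B * Z' * (K : ℝ) ^ (1 / 8 : ℝ) := by
    intro K
    have h3 : ∀ k ∈ Finset.range K, rr (k + 1) ≤ ∑ j ∈ Finset.Icc 1 K,
        (if j ^ 2 ∣ k + 1 ∧ Squarefree ((k + 1) / j ^ 2) then rr (k + 1) else 0) := by
      intro k hk
      obtain ⟨a, b, hab, hsq⟩ := Nat.sq_mul_squarefree (k + 1)
      have hb0 : 0 < b := by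
        rcases Nat.eq_zero_or_pos b with h | h
        · rw [h] at hab; simp at hab
        · exact h
      have hb2 : 0 < b ^ 2 := by positivity
      have ha0 : 0 < a := Nat.pos_of_ne_zero hsq.ne_zero
      have hbK : b ≤ K := by
        have h4 : b ≤ b ^ 2 := Nat.le_self_pow (by norm_num) b
        have h5 : b ^ 2 ≤ b ^ 2 * a := Nat.le_mul_of_pos_right _ ha0
        have h6 := Finset.mem_range.mp hk
        omega
      have hbm : b ∈ Finset.Icc 1 K := Finset.mem_Icc.mpr ⟨hb0, hbK⟩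
      refine le_trans ?_ (Finset.single_le_sum (f := fun j => if j ^ 2 ∣ k + 1 ∧
        Squarefree ((k + 1) / j ^ 2) then rr (k + 1) else 0) (fun j _ => ?_) hbm)
      · have h7 : (k + 1) / b ^ 2 = a := by rw [← hab, Nat.mul_div_cancel_left _ hb2]
        have h8 : b ^ 2 ∣ k + 1 := Dvd.intro _ hab
        simp only [h7, h8, hsq, true_and, if_true]
        exact le_rfl
      · beta_reduce
        split_ifs
        · exact rr_nonneg _
        · exact le_rfl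
    refine (Finset.sum_le_sum h3).trans ?_
    rw [Finset.sum_comm]
    have h4 : ∀ j ∈ Finset.Icc 1 K, ∑ k ∈ Finset.range K,
        (if j ^ 2 ∣ k + 1 ∧ Squarefree ((k + 1) / j ^ 2) then rr (k + 1) else 0) ≤
        1 / Z * (K : ℝ) ^ (1 / 4 : ℝ) * (j : ℝ) ^ (-(13 / 10) : ℝ) +
          B * (K : ℝ) ^ (1 / 8 : ℝ) * (j : ℝ) ^ (-(21 / 20) : ℝ) := by
      intro j hj
      have hj0 : 0 < j := (Finset.mem_Icc.mp hj).1
      have hj' : (0 : ℝ) < j := by exact_mod_cast hj0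
      refine (sum_multiples hj0 Squarefree K).trans ?_
      rw [← Finset.sum_filter]
      have h5 := h1 (K / j ^ 2)
      rw [AS] at h5
      have h7 := div_rpow_le K j hj0 (s := 1 / 4) (by norm_num)
      have h8 := div_rpow_le K j hj0 (s := 1 / 8) (by norm_num)
      have h9 := mul_le_mul_of_nonneg_left h7 (by positivity : 0 ≤ 1 / Z)
      have h10 := mul_le_mul_of_nonneg_left h8 hB0
      calc (j : ℝ) ^ (-(4 / 5) : ℝ) *
            ∑ m ∈ (Finset.range (K / j ^ 2)).filter (fun m => Squarefree (m + 1)), rr (m + 1)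
          ≤ (j : ℝ) ^ (-(4 / 5) : ℝ) *
            (1 / Z * ((K : ℝ) ^ (1 / 4 : ℝ) * (j : ℝ) ^ (-2 * (1 / 4) : ℝ)) +
              B * ((K : ℝ) ^ (1 / 8 : ℝ) * (j : ℝ) ^ (-2 * (1 / 8) : ℝ))) := by
            refine mul_le_mul_of_nonneg_left ?_ (by positivity)
            linarith
        _ = 1 / Z * (K : ℝ) ^ (1 / 4 : ℝ) * (j : ℝ) ^ (-(4 / 5) + -2 * (1 / 4) : ℝ) +
            B * (K : ℝ) ^ (1 / 8 : ℝ) * (j : ℝ) ^ (-(4 / 5) + -2 * (1 / 8) : ℝ) := by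
            rw [Real.rpow_add hj', Real.rpow_add hj']; ring
        _ = _ := by norm_num
    refine (Finset.sum_le_sum h4).trans ?_
    rw [Finset.sum_add_distrib, ← Finset.mul_sum, ← Finset.mul_sum]
    have h5 := hsum.sum_le_tsum (Finset.Icc 1 K) (fun j _ => by positivity)
    have h6 := hsum'.sum_le_tsum (Finset.Icc 1 K) (fun j _ => by positivity)
    have h7 := mul_le_mul_of_nonneg_left h5 (by positivity : 0 ≤ 1 / Z * (K : ℝ) ^ (1 / 4 : ℝ))
    have h8 := mul_le_mul_of_nonneg_left h6 (by positivity : 0 ≤ B * (K : ℝ) ^ (1 / 8 : ℝ))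
    refine (add_le_add h7 h8).trans (le_of_eq ?_)
    rw [← hZ, ← hZ']
    field_simp
  -- contradiction at `K = M ^ 8`
  obtain ⟨M, hM⟩ := exists_nat_gt (C + B * Z' + 1)
  have hM1 : (1 : ℝ) ≤ M := by
    have : 0 ≤ B * Z' := by positivity
    linarith
  have hM0 : 0 < M := by exact_mod_cast (lt_of_lt_of_le one_pos hM1)
  have h3 := h2 (M ^ 8)
  have h4 := hlow (M ^ 8) (Nat.pow_pos hM0)
  have h5 : (((M ^ 8 : ℕ)) : ℝ) ^ (1 / 4 : ℝ) = (M : ℝ) ^ 2 := by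
    push_cast
    rw [← Real.rpow_natCast (M : ℝ) 8, ← Real.rpow_mul (by positivity),
      ← Real.rpow_natCast (M : ℝ) 2]
    norm_num
  have h6 : (((M ^ 8 : ℕ)) : ℝ) ^ (1 / 8 : ℝ) = (M : ℝ) := by
    push_cast
    rw [← Real.rpow_natCast (M : ℝ) 8, ← Real.rpow_mul (by positivity)]
    norm_num
  rw [h5, h6] at h3
  rw [h5] at h4
  have h7 : ∑ k ∈ Finset.range (M ^ 8), rr (k + 1) =
      ∑ k ∈ Finset.range (M ^ 8), (gr (k + 1) : ℝ) * ((k + 1 : ℕ) : ℝ) ^ (-(3 / 4) : ℝ) :=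
    Finset.sum_congr rfl fun k _ => rfl
  rw [← h7] at h4
  have hpi : (3 : ℝ) < π := Real.pi_gt_three
  have h8 : 2 * (M : ℝ) ^ 2 ≤ C + B * Z' * M := by nlinarith [sq_nonneg (M : ℝ)]
  have h9 : C + B * Z' * M ≤ (C + B * Z') * M := by nlinarith
  nlinarith

end

end Pool.Agent.Helper53.GC
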